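import Pool.Agent.PDF.PDDefs

/-!
# Blueprint PDF, module Alpha

Cycles of the quotient complex are boundaries modulo `H^(k)`.

Notation: `π : G →* H` surjective with kernel `K`, `mp π : ℤ[G] → ℤ[H]`, bars denote images.
PROOF.
(0) The kernel of `mp π` consists of finite sums of elements `(κ - 1) g` with `κ ∈ K`, `g ∈ G`
(`single (κ g) a - single g a`; prove it by choosing a section of `π`), so a row `w` over `ℤ[G]`
with `w̄ = 0` is a finite sum `∑_t (κ_t - 1) • c_t`, `c_t` rows.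
(1) Fix a row `cs` with `cs ᵥ* e0 = cs`, `eps m cs = 1` (`h.one`).  For every `κ ∈ K` (indeed in `G`)
`eps m ((κ - 1) • cs) = 0`, so by `ex0` there is `x(κ)` with `x(κ) ᵥ* d1 = (κ - 1) • cs`,
and one may take `x(κ) ᵥ* e1 = x(κ)`.  Let `z(κ)` be its image over `ℤ[H]`; for `κ ∈ K` it
satisfies `z ᵥ* ē1 = z`, `z ᵥ* d̄1 = 0`.
For rows `u, u'` over `ℤ[H]` write `u ~ u'` if `u - u' = y ᵥ* d̄2` for some `y`.
(2) `z(κ κ') ~ z(κ) + z(κ')` for `κ, κ' ∈ K`:
`(κ κ' - 1) • cs = κ (κ' - 1) • cs + (κ - 1) • cs`, so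
`x(κ κ') - κ • x(κ') - x(κ)` is killed by `d1` and fixed by `e1`, hence it is in the row space of
`d2` (`ex1`), and `κ • x(κ')` has the same image as `x(κ')`.  In particular `z(1) ~ 0`,
`z(κ⁻¹) ~ - z(κ)`.
(3) `z(l κ l⁻¹) ~ π(l) • z(κ)` for `κ ∈ K`, `l ∈ G`: `l⁻¹ • cs - cs` has `eps` zero, so it is
`y ᵥ* d1`, and `(l κ l⁻¹ - 1) • cs = l (κ - 1) l⁻¹ • cs = l (κ - 1) • cs + l (κ - 1) • (y ᵥ* d1)`;
so `x(l κ l⁻¹) - l • x(κ) - l (κ - 1) • (y ᵥ* e1)` is killed by `d1` and fixed by `e1`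
(`y ᵥ* e1 ᵥ* d1 = y ᵥ* d1`), and `l (κ - 1) • (...)` has image zero (`π κ = 1`).
(4) Say that `κ ∈ K` is good if there is `y` with `z(κ) i` and `(y ᵥ* d̄2) i` equal modulo `H^(k)` for
all `i`.  By (2) the good elements form a subgroup of `K`.  For `κ ∈ K`, `l ∈ G^(k)`:
`⁅κ, l⁆ = κ · (l κ⁻¹ l⁻¹)` and `z(⁅κ,l⁆) ~ z(κ) - π(l) • z(κ)`, which is zero modulo `H^(k)` because
`π(l) ∈ H^(k)` (`map_derivedSeries_le_derivedSeries`).  So all generators of
`⁅K, G^(k)⁆` are good, and by `hK` all elements of `K` are good.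
(5) Let `z` be as in the theorem.  Lift `z` to a row `c` over `ℤ[G]` with `c ᵥ* e1 = c` (lift
arbitrarily, then multiply by `e1`).  `c ᵥ* d1` has image `z ᵥ* d̄1 = 0`, so by (0) and
`d1 e0 = d1`: `c ᵥ* d1 = ∑_t (κ_t - 1) • c_t` with `c_t ᵥ* e0 = c_t`.  For each `t`,
`c_t - single 1 (eps m c_t) • cs` has `eps` zero, so it is `y_t ᵥ* d1`.  Hence
`c - ∑_t single 1 (eps m c_t) • x(κ_t) - ∑_t (κ_t - 1) • (y_t ᵥ* e1)` is killed by `d1` and fixed by
`e1`, so it is `y ᵥ* d2`.  Taking images: `z ~ ∑_t (eps m c_t) z(κ_t)`, and each `z(κ_t)` is good.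
-/

set_option autoImplicit false
set_option linter.unusedSectionVars false

namespace Pool.Agent.PDF

open Matrix

section ker
variable {G H : Type*} [Group G] [Group H] (π : G →* H)

/-- the rows which are sums of `(κ - 1) c` with `κ` in the kernel -/
noncomputable def Kr (n : Type*) : AddSubgroup (n → MonoidAlgebra ℤ G) :=
  AddSubgroup.closure {w | ∃ κ ∈ π.ker, ∃ c : n → MonoidAlgebra ℤ G,
    w = (MonoidAlgebra.single κ (1 : ℤ) - 1) • c}

theorem kr_elem (hπ : Function.Surjective π) (x : MonoidAlgebra ℤ G) (hx : mp π x = 0) :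
    x ∈ AddSubgroup.closure {w | ∃ κ ∈ π.ker, ∃ c : MonoidAlgebra ℤ G,
    w = (MonoidAlgebra.single κ (1 : ℤ) - 1) * c} := by
  obtain ⟨σ, hσ⟩ := hπ.hasRightInverse
  have key : ∀ y : MonoidAlgebra ℤ G, y - MonoidAlgebra.mapDomain σ (mp π y) ∈
      AddSubgroup.closure {w | ∃ κ ∈ π.ker, ∃ c : MonoidAlgebra ℤ G,
        w = (MonoidAlgebra.single κ (1 : ℤ) - 1) * c} := by
    intro y
    induction y using MonoidAlgebra.induction_linear with
    | zero => simp [MonoidAlgebra.mapDomain_zero, zero_mem]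
    | add y z hy hz =>
      have h1 : y + z - MonoidAlgebra.mapDomain σ (mp π (y + z)) =
          (y - MonoidAlgebra.mapDomain σ (mp π y)) +
          (z - MonoidAlgebra.mapDomain σ (mp π z)) := by
        rw [map_add, MonoidAlgebra.mapDomain_add]; abel
      rw [h1]; exact add_mem hy hz
    | single g a =>
      apply AddSubgroup.subset_closure
      refine ⟨g * (σ (π g))⁻¹, ?_, MonoidAlgebra.single (σ (π g)) a, ?_⟩
      · rw [MonoidHom.mem_ker, map_mul, map_inv, hσ]; simp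
      · rw [mp_single, MonoidAlgebra.mapDomain_single, sub_mul, one_mul,
          MonoidAlgebra.single_mul_single]
        simp
  have := key x
  rw [hx, MonoidAlgebra.mapDomain_zero, sub_zero] at this
  exact this

theorem mem_Kr {n : Type*} [Fintype n] [DecidableEq n] (hπ : Function.Surjective π)
    (w : n → MonoidAlgebra ℤ G) (hw : ∀ i, mp π (w i) = 0) : w ∈ Kr π n := by
  have h1 : w = ∑ i, (Pi.single i (w i) : n → MonoidAlgebra ℤ G) := by
    funext j
    simp [Finset.sum_apply, Pi.single_apply]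
  rw [h1]
  refine sum_mem fun i _ => ?_
  have h2 : ∀ x : MonoidAlgebra ℤ G, x ∈ AddSubgroup.closure
      {w | ∃ κ ∈ π.ker, ∃ c : MonoidAlgebra ℤ G, w = (MonoidAlgebra.single κ (1 : ℤ) - 1) * c} →
      (Pi.single i x : n → MonoidAlgebra ℤ G) ∈ Kr π n := by
    intro x hx
    induction hx using AddSubgroup.closure_induction with
    | mem x hx =>
      obtain ⟨κ, hκ, c, rfl⟩ := hx
      apply AddSubgroup.subset_closure
      refine ⟨κ, hκ, Pi.single i c, ?_⟩
      funext j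
      by_cases hj : j = i
      · subst hj; simp
      · simp [hj]
    | zero => rw [Pi.single_zero]; exact zero_mem _
    | add x y _ _ hx hy => rw [Pi.single_add]; exact add_mem hx hy
    | neg x _ hx => rw [Pi.single_neg]; exact neg_mem hx
  exact h2 _ (kr_elem π hπ _ (hw i))

end ker

section base
variable {G : Type*} [Group G] {n : Type*} [Fintype n]

theorem eps_add (m : n → ℤ) (v w : n → MonoidAlgebra ℤ G) :
    eps m (v + w) = eps m v + eps m w := by
  simp [eps, add_mul, Finset.sum_add_distrib]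

theorem eps_sub (m : n → ℤ) (v w : n → MonoidAlgebra ℤ G) :
    eps m (v - w) = eps m v - eps m w := by
  simp [eps, sub_mul, Finset.sum_sub_distrib]

theorem eps_smul (m : n → ℤ) (a : MonoidAlgebra ℤ G) (v : n → MonoidAlgebra ℤ G) :
    eps m (a • v) = aug a * eps m v := by
  simp [eps, Finset.mul_sum, mul_assoc]

theorem eps_zsmul (m : n → ℤ) (a : ℤ) (v : n → MonoidAlgebra ℤ G) :
    eps m (a • v) = a * eps m v := by
  simp [eps, Finset.mul_sum, mul_assoc]

theorem eps_vecMul {n' : Type*} [Fintype n'] (m : n → ℤ) (v : n' → MonoidAlgebra ℤ G)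
    (M : Matrix n' n (MonoidAlgebra ℤ G)) : eps m (v ᵥ* M) = ∑ i, aug (v i) * eps m (M i) := by
  simp only [eps, Matrix.vecMul, dotProduct, map_sum, map_mul, Finset.sum_mul, Finset.mul_sum]
  rw [Finset.sum_comm]
  refine Finset.sum_congr rfl fun i _ => Finset.sum_congr rfl fun j _ => ?_
  ring

end base

theorem mp_vecMul {G H : Type*} [Group G] [Group H] (π : G →* H) {a b : Type*} [Fintype a]
    (v : a → MonoidAlgebra ℤ G) (M : Matrix a b (MonoidAlgebra ℤ G)) (i : b) :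
    mp π ((v ᵥ* M) i) = ((fun j => mp π (v j)) ᵥ* M.map (mp π)) i := by
  simp [Matrix.vecMul, dotProduct, map_sum]

/-- lifting through the first differential -/
theorem Base.lift {G : Type*} [Group G] {n0 n1 : Type*} [Fintype n0] [Fintype n1]
    {e0 : Matrix n0 n0 (MonoidAlgebra ℤ G)} {e1 : Matrix n1 n1 (MonoidAlgebra ℤ G)}
    {d1 : Matrix n1 n0 (MonoidAlgebra ℤ G)} {m : n0 → ℤ} (h : Base e0 e1 d1 m)
    (v : n0 → MonoidAlgebra ℤ G) (hv : v ᵥ* e0 = v) (hv2 : eps m v = 0) :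
    ∃ x : n1 → MonoidAlgebra ℤ G, x ᵥ* e1 = x ∧ x ᵥ* d1 = v := by
  obtain ⟨y, hy⟩ := h.ex0 v hv hv2
  refine ⟨y ᵥ* e1, ?_, ?_⟩
  · rw [Matrix.vecMul_vecMul, h.e1e1]
  · rw [Matrix.vecMul_vecMul, h.e1d1, hy]

theorem alpha {G H : Type*} [Group G] [Group H] (π : G →* H) (hπ : Function.Surjective π)
    (k : ℕ) (hK : π.ker ≤ ⁅π.ker, derivedSeries G k⁆)
    {n0 n1 n2 : Type*} [Fintype n0] [Fintype n1] [Fintype n2]
    (e0 : Matrix n0 n0 (MonoidAlgebra ℤ G)) (e1 : Matrix n1 n1 (MonoidAlgebra ℤ G))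
    (d1 : Matrix n1 n0 (MonoidAlgebra ℤ G)) (d2 : Matrix n2 n1 (MonoidAlgebra ℤ G))
    (m : n0 → ℤ) (h : Half e0 e1 d1 d2 m) (z : n1 → MonoidAlgebra ℤ H)
    (hz1 : Matrix.vecMul z (e1.map (mp π)) = z) (hz2 : Matrix.vecMul z (d1.map (mp π)) = 0) :
    ∃ y : n2 → MonoidAlgebra ℤ H,
      ∀ i, modD k (z i) = modD k (Matrix.vecMul y (d2.map (mp π)) i) := by
  classical
  -- the subgroup of good rows
  let Sg : AddSubgroup (n1 → MonoidAlgebra ℤ G) :=
    { carrier := {c | ∃ y : n2 → MonoidAlgebra ℤ H,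
        ∀ i, modD k (mp π (c i)) = modD k (Matrix.vecMul y (d2.map (mp π)) i)}
      add_mem' := by
        rintro a b ⟨y, hy⟩ ⟨y', hy'⟩
        refine ⟨y + y', fun i => ?_⟩
        rw [Matrix.add_vecMul, Pi.add_apply, Pi.add_apply, map_add, map_add, map_add, hy, hy']
      zero_mem' := ⟨0, fun i => by rw [Matrix.zero_vecMul]; simp⟩
      neg_mem' := by
        rintro a ⟨y, hy⟩
        refine ⟨-y, fun i => ?_⟩
        rw [Matrix.neg_vecMul, Pi.neg_apply, Pi.neg_apply, map_neg, map_neg, map_neg, hy] }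
  have hSa : ∀ y : n2 → MonoidAlgebra ℤ G, y ᵥ* d2 ∈ Sg := by
    intro y
    refine ⟨fun j => mp π (y j), fun i => ?_⟩
    rw [mp_vecMul]
  have hSE : ∀ c : n1 → MonoidAlgebra ℤ G, c ᵥ* e1 = c → c ᵥ* d1 = 0 → c ∈ Sg := by
    intro c h1 h2
    obtain ⟨y, hy⟩ := h.ex1 c h1 h2
    rw [← hy]; exact hSa y
  have hSb : ∀ κ ∈ π.ker, ∀ c : n1 → MonoidAlgebra ℤ G,
      (MonoidAlgebra.single κ (1 : ℤ) - 1) • c ∈ Sg := by
    intro κ hκ c
    refine ⟨0, fun i => ?_⟩
    rw [Matrix.zero_vecMul, Pi.smul_apply, smul_eq_mul, map_mul, map_sub, mp_single,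
      (MonoidHom.mem_ker).1 hκ, map_one, ← MonoidAlgebra.one_def, sub_self, zero_mul]
    simp
  have hSc : ∀ l ∈ derivedSeries G k, ∀ c : n1 → MonoidAlgebra ℤ G,
      (MonoidAlgebra.single l (1 : ℤ) - 1) • c ∈ Sg := by
    intro l hl c
    refine ⟨0, fun i => ?_⟩
    have h1 : π l ∈ derivedSeries H k :=
      (map_derivedSeries_le_derivedSeries π k) (Subgroup.mem_map_of_mem π hl)
    have h2 : modD k (MonoidAlgebra.single (π l) (1 : ℤ)) = 1 := by
      simp only [modD, MonoidAlgebra.mapDomainRingHom_apply, MonoidAlgebra.mapDomain_single,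
        MonoidAlgebra.one_def]
      congr 1
      exact (QuotientGroup.eq_one_iff _).2 h1
    rw [Matrix.zero_vecMul, Pi.smul_apply, smul_eq_mul, map_mul, map_sub, mp_single,
      map_one, map_mul, map_sub, h2, map_one, sub_self, zero_mul]
    simp
  obtain ⟨cs, hcs1, hcs2⟩ := h.one
  -- the elements x κ
  have hx : ∀ g : G, ∃ x : n1 → MonoidAlgebra ℤ G, x ᵥ* e1 = x ∧
      x ᵥ* d1 = (MonoidAlgebra.single g (1 : ℤ) - 1) • cs := by
    intro g
    apply h.toBase.lift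
    · rw [Matrix.smul_vecMul, hcs1]
    · rw [eps_smul]; simp
  choose x hx1 hx2 using hx
  have hmul : ∀ κ ∈ π.ker, ∀ κ' ∈ π.ker, x (κ * κ') - x κ - x κ' ∈ Sg := by
    intro κ hκ κ' hκ'
    have h1 : x (κ * κ') - (MonoidAlgebra.single κ (1 : ℤ)) • x κ' - x κ ∈ Sg := by
      apply hSE
      · rw [Matrix.sub_vecMul, Matrix.sub_vecMul, Matrix.smul_vecMul, hx1, hx1, hx1]
      · rw [Matrix.sub_vecMul, Matrix.sub_vecMul, Matrix.smul_vecMul, hx2, hx2, hx2, smul_smul,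
          ← sub_smul, ← sub_smul, mul_sub, MonoidAlgebra.single_mul_single]
        simp
    have h2 : x (κ * κ') - x κ - x κ' = (x (κ * κ') -
        (MonoidAlgebra.single κ (1 : ℤ)) • x κ' - x κ) +
        (MonoidAlgebra.single κ (1 : ℤ) - 1) • x κ' := by
      rw [sub_smul, one_smul]; abel
    rw [h2]
    exact add_mem h1 (hSb κ hκ _)
  have hone : x 1 ∈ Sg := by
    apply hSE _ (hx1 1)
    rw [hx2, ← MonoidAlgebra.one_def, sub_self, zero_smul]
  have hinv : ∀ κ ∈ π.ker, x κ + x κ⁻¹ ∈ Sg := by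
    intro κ hκ
    have h1 := hmul κ hκ κ⁻¹ (inv_mem hκ)
    rw [mul_inv_cancel] at h1
    have h2 : x κ + x κ⁻¹ = x 1 - (x 1 - x κ - x κ⁻¹) := by abel
    rw [h2]
    exact sub_mem hone h1
  have hconj : ∀ κ ∈ π.ker, ∀ l : G,
      x (l * κ * l⁻¹) - (MonoidAlgebra.single l (1 : ℤ)) • x κ ∈ Sg := by
    intro κ hκ l
    obtain ⟨y, hy1, hy2⟩ := h.toBase.lift ((MonoidAlgebra.single l⁻¹ (1 : ℤ) - 1) • cs)
      (by rw [Matrix.smul_vecMul, hcs1]) (by rw [eps_smul]; simp)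
    have h1 : x (l * κ * l⁻¹) - (MonoidAlgebra.single l (1 : ℤ)) • x κ -
        (MonoidAlgebra.single l (1 : ℤ) * (MonoidAlgebra.single κ (1 : ℤ) - 1)) • y ∈ Sg := by
      apply hSE
      · rw [Matrix.sub_vecMul, Matrix.sub_vecMul, Matrix.smul_vecMul, Matrix.smul_vecMul, hx1,
          hx1, hy1]
      · rw [Matrix.sub_vecMul, Matrix.sub_vecMul, Matrix.smul_vecMul, Matrix.smul_vecMul, hx2,
          hx2, hy2, smul_smul, smul_smul, ← sub_smul, ← sub_smul]
        have h3 : (MonoidAlgebra.single (l * κ * l⁻¹) (1 : ℤ) - 1 -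
            MonoidAlgebra.single l (1 : ℤ) * (MonoidAlgebra.single κ (1 : ℤ) - 1) -
            MonoidAlgebra.single l (1 : ℤ) * (MonoidAlgebra.single κ (1 : ℤ) - 1) *
              (MonoidAlgebra.single l⁻¹ (1 : ℤ) - 1) : MonoidAlgebra ℤ G) = 0 := by
          simp only [mul_sub, sub_mul, mul_one, MonoidAlgebra.single_mul_single,
            mul_inv_cancel, ← MonoidAlgebra.one_def]
          abel
        rw [h3, zero_smul]
    have h4 : (MonoidAlgebra.single l (1 : ℤ) * (MonoidAlgebra.single κ (1 : ℤ) - 1)) • y =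
        (MonoidAlgebra.single (l * κ * l⁻¹) (1 : ℤ) - 1) •
          ((MonoidAlgebra.single l (1 : ℤ)) • y) := by
      rw [smul_smul]
      congr 1
      simp [mul_sub, sub_mul, MonoidAlgebra.single_mul_single]
    have h5 : (MonoidAlgebra.single l (1 : ℤ) * (MonoidAlgebra.single κ (1 : ℤ) - 1)) • y ∈ Sg := by
      rw [h4]
      exact hSb _ ((MonoidHom.normal_ker π).conj_mem κ hκ l) _
    have h6 := add_mem h1 h5
    simpa using h6
  -- all kernel elements are good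
  let Kg : Subgroup G :=
    { carrier := {κ | κ ∈ π.ker ∧ x κ ∈ Sg}
      mul_mem' := by
        rintro a b ⟨ha, ha'⟩ ⟨hb, hb'⟩
        refine ⟨mul_mem ha hb, ?_⟩
        have h1 := hmul a ha b hb
        have h2 : x (a * b) = (x (a * b) - x a - x b) + x a + x b := by abel
        rw [h2]
        exact add_mem (add_mem h1 ha') hb'
      one_mem' := ⟨one_mem _, hone⟩
      inv_mem' := by
        rintro a ⟨ha, ha'⟩
        refine ⟨inv_mem ha, ?_⟩
        have h1 := sub_mem (hinv a ha) ha'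
        simpa using h1 }
  have hall : ∀ κ ∈ π.ker, x κ ∈ Sg := by
    intro κ hκ
    have h1 : ⁅π.ker, derivedSeries G k⁆ ≤ Kg := by
      rw [Subgroup.commutator_le]
      intro a ha l hl
      have hc : l * a⁻¹ * l⁻¹ ∈ π.ker := (MonoidHom.normal_ker π).conj_mem a⁻¹ (inv_mem ha) l
      have he : a * l * a⁻¹ * l⁻¹ = a * (l * a⁻¹ * l⁻¹) := by group
      rw [commutatorElement_def, he]
      refine ⟨mul_mem ha hc, ?_⟩
      have h2 := hmul a ha _ hc
      have h3 := hconj a⁻¹ (inv_mem ha) l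
      have h4 := hSc l hl (x a⁻¹)
      have h5 := hinv a ha
      rw [sub_smul, one_smul] at h4
      have h6 := add_mem (add_mem (add_mem h2 h3) h4) h5
      have h7 : x (a * (l * a⁻¹ * l⁻¹)) - x a - x (l * a⁻¹ * l⁻¹) +
          (x (l * a⁻¹ * l⁻¹) - (MonoidAlgebra.single l (1 : ℤ)) • x a⁻¹) +
          ((MonoidAlgebra.single l (1 : ℤ)) • x a⁻¹ - x a⁻¹) + (x a + x a⁻¹) =
          x (a * (l * a⁻¹ * l⁻¹)) := by abel
      rw [h7] at h6
      exact h6
    exact (h1 (hK hκ)).2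
  -- lift z
  have hlift : ∀ b : MonoidAlgebra ℤ H, ∃ a : MonoidAlgebra ℤ G, mp π a = b := by
    intro b
    induction b using MonoidAlgebra.induction_linear with
    | zero => exact ⟨0, map_zero _⟩
    | add y z hy hz =>
      obtain ⟨a, ha⟩ := hy
      obtain ⟨b, hb⟩ := hz
      exact ⟨a + b, by rw [map_add, ha, hb]⟩
    | single g c =>
      obtain ⟨g', rfl⟩ := hπ g
      exact ⟨MonoidAlgebra.single g' c, mp_single _ _ _⟩
  choose c0 hc0 using fun i => hlift (z i)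
  obtain ⟨c, hc1, hc2⟩ : ∃ c : n1 → MonoidAlgebra ℤ G, c ᵥ* e1 = c ∧ ∀ i, mp π (c i) = z i := by
    refine ⟨c0 ᵥ* e1, ?_, fun i => ?_⟩
    · rw [Matrix.vecMul_vecMul, h.e1e1]
    · rw [mp_vecMul]
      have : (fun j => mp π (c0 j)) = z := funext hc0
      rw [this, hz1]
  have hcd : c ᵥ* d1 ∈ Kr π n0 := by
    apply mem_Kr π hπ
    intro i
    rw [mp_vecMul]
    have : (fun j => mp π (c j)) = z := funext hc2
    rw [this, hz2]; rfl
  have hKr : ∀ w ∈ Kr π n0, ∃ u ∈ Sg, u ᵥ* e1 = u ∧ u ᵥ* d1 = w ᵥ* e0 := by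
    intro w hw
    induction hw using AddSubgroup.closure_induction with
    | mem w hw =>
      obtain ⟨κ, hκ, c', rfl⟩ := hw
      obtain ⟨y, hy1, hy2⟩ := h.toBase.lift (c' ᵥ* e0 - (eps m (c' ᵥ* e0)) • cs)
        (by
          rw [Matrix.sub_vecMul, Matrix.vecMul_vecMul, h.e0e0, Matrix.smul_vecMul, hcs1])
        (by rw [eps_sub, eps_zsmul, hcs2, mul_one, sub_self])
      refine ⟨(eps m (c' ᵥ* e0)) • x κ + (MonoidAlgebra.single κ (1 : ℤ) - 1) • y, ?_, ?_, ?_⟩
      · exact add_mem (zsmul_mem (hall κ hκ) _) (hSb κ hκ y)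
      · rw [Matrix.add_vecMul, Matrix.smul_vecMul, Matrix.smul_vecMul, hx1, hy1]
      · rw [Matrix.add_vecMul, Matrix.smul_vecMul, Matrix.smul_vecMul, hx2, hy2,
          Matrix.smul_vecMul, smul_sub, smul_comm (eps m (c' ᵥ* e0))]
        abel
    | zero => exact ⟨0, zero_mem _, by simp, by simp⟩
    | add v w _ _ hv hw =>
      obtain ⟨u, hu, hu1, hu2⟩ := hv
      obtain ⟨u', hu', hu1', hu2'⟩ := hw
      exact ⟨u + u', add_mem hu hu', by rw [Matrix.add_vecMul, hu1, hu1'],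
        by rw [Matrix.add_vecMul, hu2, hu2', Matrix.add_vecMul]⟩
    | neg v _ hv =>
      obtain ⟨u, hu, hu1, hu2⟩ := hv
      exact ⟨-u, neg_mem hu, by rw [Matrix.neg_vecMul, hu1],
        by rw [Matrix.neg_vecMul, hu2, Matrix.neg_vecMul]⟩
  obtain ⟨u, hu, hu1, hu2⟩ := hKr _ hcd
  have hfin : c ∈ Sg := by
    have h1 : c - u ∈ Sg := by
      apply hSE
      · rw [Matrix.sub_vecMul, hc1, hu1]
      · rw [Matrix.sub_vecMul, hu2, Matrix.vecMul_vecMul, h.d1e0, sub_self]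
    have h2 := add_mem h1 hu
    simpa using h2
  obtain ⟨y, hy⟩ := hfin
  exact ⟨y, fun i => by rw [← hy i, hc2 i]⟩

end Pool.Agent.PDF
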