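import Pool.Agent.PDF.PDDefs

/-!
# Blueprint PDF, module BaseMap

Base change of the structure `Base` along a surjective homomorphism, and stability of reduction
modulo derived subgroups under the anti-automorphism `iota`.
-/

set_option autoImplicit false

namespace Pool.Agent.PDF

private theorem mp_surjective_bm {G H : Type*} [Group G] [Group H] (π : G →* H)
    (hπ : Function.Surjective π) : Function.Surjective (mp π) := by
  intro x
  induction x using MonoidAlgebra.induction_linear with
  | zero => exact ⟨0, map_zero _⟩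
  | add x y hx hy =>
    obtain ⟨x', rfl⟩ := hx
    obtain ⟨y', rfl⟩ := hy
    exact ⟨x' + y', map_add _ _ _⟩
  | single g a =>
    obtain ⟨g', rfl⟩ := hπ g
    exact ⟨MonoidAlgebra.single g' a, mp_single π g' a⟩

private theorem eps_mp_bm {G H n : Type*} [Group G] [Group H] [Fintype n] (π : G →* H)
    (m : n → ℤ) (v : n → MonoidAlgebra ℤ G) : eps m (fun j => mp π (v j)) = eps m v := by
  simp only [eps, aug_mp]

private theorem vecMul_mp_bm {G H n k : Type*} [Group G] [Group H] [Fintype n] (π : G →* H)
    (v : n → MonoidAlgebra ℤ G) (M : Matrix n k (MonoidAlgebra ℤ G)) :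
    Matrix.vecMul (fun j => mp π (v j)) (M.map (mp π)) =
      fun j => mp π (Matrix.vecMul v M j) := by
  funext j
  simp [Matrix.vecMul, dotProduct, map_sum]

theorem base_map {G H : Type*} [Group G] [Group H] (π : G →* H) (hπ : Function.Surjective π)
    {n0 n1 : Type*} [Fintype n0] [Fintype n1]
    (e0 : Matrix n0 n0 (MonoidAlgebra ℤ G)) (e1 : Matrix n1 n1 (MonoidAlgebra ℤ G))
    (d1 : Matrix n1 n0 (MonoidAlgebra ℤ G)) (m : n0 → ℤ) (h : Base e0 e1 d1 m) :
    Base (e0.map (mp π)) (e1.map (mp π)) (d1.map (mp π)) m where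
  e0e0 := by rw [← Matrix.map_mul, h.e0e0]
  e1e1 := by rw [← Matrix.map_mul, h.e1e1]
  e1d1 := by rw [← Matrix.map_mul, h.e1d1]
  d1e0 := by rw [← Matrix.map_mul, h.d1e0]
  me0 := by
    intro i
    have := eps_mp_bm π m (e0 i)
    rw [h.me0 i] at this
    exact this
  md1 := by
    intro i
    have := eps_mp_bm π m (d1 i)
    rw [h.md1 i] at this
    exact this
  one := by
    obtain ⟨v, hv1, hv2⟩ := h.one
    refine ⟨fun j => mp π (v j), ?_, ?_⟩
    · rw [vecMul_mp_bm, hv1]
    · rw [eps_mp_bm, hv2]
  ex0 := by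
    intro v hv1 hv2
    choose c hc using fun j => mp_surjective_bm π hπ (v j)
    have hv : v = fun j => mp π (c j) := by
      funext j
      exact (hc j).symm
    have h1 : (fun j => mp π (Matrix.vecMul c e0 j)) = v := by
      rw [← vecMul_mp_bm, ← hv, hv1]
    have h2 : eps m (Matrix.vecMul c e0) = 0 := by
      rw [← eps_mp_bm π m (Matrix.vecMul c e0), h1, hv2]
    have h3 : Matrix.vecMul (Matrix.vecMul c e0) e0 = Matrix.vecMul c e0 := by
      rw [Matrix.vecMul_vecMul, h.e0e0]
    obtain ⟨y, hy⟩ := h.ex0 _ h3 h2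
    refine ⟨fun j => mp π (y j), ?_⟩
    rw [vecMul_mp_bm, hy, h1]

theorem modD_iota {H : Type*} [Group H] (s : H →* ℤˣ) (k : ℕ) (hk : 1 ≤ k)
    (x y : MonoidAlgebra ℤ H) (hxy : modD k x = modD k y) :
    modD k (iota s x) = modD k (iota s y) := by
  have hs : derivedSeries H k ≤ s.ker := by
    refine (derivedSeries_antitone (G := H) hk).trans ?_
    rw [derivedSeries_one]
    exact Abelianization.commutator_subset_ker s
  set s' : H ⧸ derivedSeries H k →* ℤˣ := QuotientGroup.lift (derivedSeries H k) s
    (fun g hg => hs hg) with hs'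
  have hcomp : s'.comp (QuotientGroup.mk' (derivedSeries H k)) = s := by
    ext g
    rfl
  have key : ∀ x, modD k (iota s x) = iota s' (modD k x) := by
    intro x
    have := mp_iota (QuotientGroup.mk' (derivedSeries H k)) s' x
    rw [hcomp] at this
    exact this
  rw [key, key, hxy]

theorem aug_of_modD {H : Type*} [Group H] (k : ℕ) (x y : MonoidAlgebra ℤ H)
    (hxy : modD k x = modD k y) : aug x = aug y := by
  have key : ∀ x : MonoidAlgebra ℤ H, aug (modD k x) = aug x := fun x =>
    aug_mp (QuotientGroup.mk' (derivedSeries H k)) x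
  rw [← key x, ← key y, hxy]

end Pool.Agent.PDF
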