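import Pool.Agent.PDF.PDDefs

/-!
# Blueprint PDF, module Beta

If all cycles of the quotient complex in degree one are boundaries then the kernel is perfect.
-/

set_option autoImplicit false

namespace Pool.Agent.PDF

/-- additive extension of a function on the group with values in an abelian group -/
private noncomputable def evA {G A : Type*} [AddCommGroup A] (f : G → A) :
    MonoidAlgebra ℤ G →+ A :=
  (Finsupp.liftAddHom fun g => (smulAddHom ℤ A).flip (f g)).comp
    (MonoidAlgebra.coeffAddEquiv (R := ℤ) (M := G)).toAddMonoidHom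

private theorem evA_single {G A : Type*} [AddCommGroup A] (f : G → A) (g : G) (n : ℤ) :
    evA f (MonoidAlgebra.single g n) = n • f g := by
  simp [evA]

private noncomputable def lamB {G n : Type*} [Group G] [Fintype n] (m : n → ℤ)
    (v : n → MonoidAlgebra ℤ G) : MonoidAlgebra ℤ G := ∑ j, m j • v j

private theorem lamB_add {G n : Type*} [Group G] [Fintype n] (m : n → ℤ)
    (v w : n → MonoidAlgebra ℤ G) : lamB m (v + w) = lamB m v + lamB m w := by
  simp only [lamB, Pi.add_apply, smul_add, Finset.sum_add_distrib]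

private theorem lamB_smul {G n : Type*} [Group G] [Fintype n] (m : n → ℤ)
    (b : MonoidAlgebra ℤ G) (v : n → MonoidAlgebra ℤ G) :
    lamB m (b • v) = b * lamB m v := by
  simp only [lamB, Pi.smul_apply, smul_eq_mul, Finset.mul_sum]
  exact Finset.sum_congr rfl fun j _ => (mul_smul_comm _ _ _).symm

private theorem aug_lamB {G n : Type*} [Group G] [Fintype n] (m : n → ℤ)
    (v : n → MonoidAlgebra ℤ G) : aug (lamB m v) = eps m v := by
  simp only [lamB, eps, map_sum]
  exact Finset.sum_congr rfl fun j _ => by rw [map_zsmul, smul_eq_mul, mul_comm]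

private theorem lamB_sum {G n ι : Type*} [Group G] [Fintype n] (m : n → ℤ) (s : Finset ι)
    (v : ι → n → MonoidAlgebra ℤ G) : lamB m (∑ i ∈ s, v i) = ∑ i ∈ s, lamB m (v i) := by
  classical
  induction s using Finset.induction_on with
  | empty => simp [lamB]
  | insert a s ha ih => rw [Finset.sum_insert ha, Finset.sum_insert ha, lamB_add, ih]

private theorem vecMul_rowsB {A n m : Type*} [Ring A] [Fintype n] (v : n → A)
    (M : Matrix n m A) : Matrix.vecMul v M = ∑ i, v i • M i := by
  funext j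
  simp [Matrix.vecMul, dotProduct, Finset.sum_apply]

private theorem mp_surjB {G H : Type*} [Group G] [Group H] (π : G →* H)
    (hπ : Function.Surjective π) : Function.Surjective (mp π) := by
  intro x
  induction x using MonoidAlgebra.induction_linear with
  | zero => exact ⟨0, map_zero _⟩
  | add x y hx hy =>
    obtain ⟨x', rfl⟩ := hx
    obtain ⟨y', rfl⟩ := hy
    exact ⟨x' + y', map_add _ _ _⟩
  | single g a =>
    obtain ⟨g', rfl⟩ := hπ g
    exact ⟨MonoidAlgebra.single g' a, mp_single π g' a⟩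

private theorem vecMul_mpB {G H n k : Type*} [Group G] [Group H] [Fintype n] (π : G →* H)
    (v : n → MonoidAlgebra ℤ G) (M : Matrix n k (MonoidAlgebra ℤ G)) :
    Matrix.vecMul (fun j => mp π (v j)) (M.map (mp π)) =
      fun j => mp π (Matrix.vecMul v M j) := by
  funext j
  simp [Matrix.vecMul, dotProduct, map_sum]

theorem beta {G H : Type*} [Group G] [Group H] (π : G →* H) (hπ : Function.Surjective π)
    {n0 n1 n2 : Type*} [Fintype n0] [Fintype n1] [Fintype n2]
    (e0 : Matrix n0 n0 (MonoidAlgebra ℤ G)) (e1 : Matrix n1 n1 (MonoidAlgebra ℤ G))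
    (d1 : Matrix n1 n0 (MonoidAlgebra ℤ G)) (d2 : Matrix n2 n1 (MonoidAlgebra ℤ G))
    (m : n0 → ℤ) (h : Half e0 e1 d1 d2 m)
    (hZ : ∀ z : n1 → MonoidAlgebra ℤ H, Matrix.vecMul z (e1.map (mp π)) = z →
      Matrix.vecMul z (d1.map (mp π)) = 0 →
        ∃ y : n2 → MonoidAlgebra ℤ H, Matrix.vecMul y (d2.map (mp π)) = z) :
    π.ker ≤ ⁅π.ker, π.ker⁆ := by
  classical
  choose t ht using hπ
  have hmem : ∀ g : G, g * (t (π g))⁻¹ ∈ π.ker := by
    intro g
    rw [MonoidHom.mem_ker, map_mul, map_inv, ht, mul_inv_cancel]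
  set cl : π.ker → Additive (Abelianization π.ker) :=
    fun κ => Additive.ofMul (Abelianization.of κ) with hcl
  set μf : G → Additive (Abelianization π.ker) := fun g => cl ⟨g * (t (π g))⁻¹, hmem g⟩ with hμf
  set μ := evA μf with hμ
  have hμκ : ∀ (κ : π.ker) (g : G), μf ((κ : G) * g) = cl κ + μf g := by
    intro κ g
    have e : (⟨(κ : G) * g * (t (π ((κ : G) * g)))⁻¹, hmem _⟩ : π.ker) =
        κ * ⟨g * (t (π g))⁻¹, hmem g⟩ := by
      apply Subtype.ext
      have h1 : π ((κ : G) * g) = π g := by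
        rw [map_mul, (MonoidHom.mem_ker).1 κ.2, one_mul]
      change (κ : G) * g * (t (π ((κ : G) * g)))⁻¹ = (κ : G) * (g * (t (π g))⁻¹)
      rw [h1, mul_assoc]
    change cl _ = cl κ + cl _
    rw [e]
    simp only [hcl, map_mul, ofMul_mul]
  have hμ1 : ∀ (κ : π.ker) (u : MonoidAlgebra ℤ G),
      μ (MonoidAlgebra.single (κ : G) 1 * u) = aug u • cl κ + μ u := by
    intro κ u
    induction u using MonoidAlgebra.induction_linear with
    | zero => simp
    | add x y hx hy => rw [mul_add, map_add, hx, hy, map_add, map_add, add_smul]; abel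
    | single g a =>
      rw [MonoidAlgebra.single_mul_single, one_mul, aug_single]
      simp only [hμ, evA_single, hμκ, smul_add]
  have hμ2 : ∀ (u : MonoidAlgebra ℤ G), aug u = 0 → ∀ a : MonoidAlgebra ℤ G,
      μ (a * u) = evA (fun y : H => μ (MonoidAlgebra.single (t y) 1 * u)) (mp π a) := by
    intro u hu a
    induction a using MonoidAlgebra.induction_linear with
    | zero => simp
    | add x y hx hy => rw [add_mul, map_add, hx, hy, map_add, map_add]
    | single g b =>
      rw [mp_single, evA_single]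
      have e1 : (MonoidAlgebra.single g b : MonoidAlgebra ℤ G) =
          b • (MonoidAlgebra.single (g * (t (π g))⁻¹) 1 * MonoidAlgebra.single (t (π g)) 1) := by
        rw [MonoidAlgebra.single_mul_single, inv_mul_cancel_right, mul_one,
          MonoidAlgebra.smul_single, smul_eq_mul, mul_one]
      rw [e1, smul_mul_assoc, map_zsmul, mul_assoc]
      congr 1
      have h2 := hμ1 ⟨g * (t (π g))⁻¹, hmem g⟩ (MonoidAlgebra.single (t (π g)) 1 * u)
      have h3 : aug ((MonoidAlgebra.single (t (π g)) 1 : MonoidAlgebra ℤ G) * u) = 0 := by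
        rw [map_mul, hu, mul_zero]
      rw [h3, zero_smul, zero_add] at h2
      exact h2
  obtain ⟨cs, hcs, hcs1⟩ := h.one
  intro κ hκ
  have hv1 : Matrix.vecMul ((MonoidAlgebra.single κ 1 - 1 : MonoidAlgebra ℤ G) • cs) e0 =
      (MonoidAlgebra.single κ 1 - 1 : MonoidAlgebra ℤ G) • cs := by
    rw [Matrix.smul_vecMul, hcs]
  have hv2 : eps m ((MonoidAlgebra.single κ 1 - 1 : MonoidAlgebra ℤ G) • cs) = 0 := by
    rw [← aug_lamB, lamB_smul, map_mul, map_sub, aug_single, map_one, sub_self, zero_mul]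
  obtain ⟨x0, hx0⟩ := h.ex0 _ hv1 hv2
  set x := Matrix.vecMul x0 e1 with hx
  have hxd : Matrix.vecMul x d1 = (MonoidAlgebra.single κ 1 - 1 : MonoidAlgebra ℤ G) • cs := by
    rw [hx, Matrix.vecMul_vecMul, h.e1d1, hx0]
  have hxe : Matrix.vecMul x e1 = x := by
    rw [hx, Matrix.vecMul_vecMul, h.e1e1]
  obtain ⟨y, hy⟩ := hZ (fun j => mp π (x j)) (by rw [vecMul_mpB, hxe]) (by
    rw [vecMul_mpB, hxd]
    funext j
    have : mp π (MonoidAlgebra.single κ 1 - 1 : MonoidAlgebra ℤ G) = 0 := by
      rw [map_sub, mp_single, (MonoidHom.mem_ker).1 hκ, map_one, ← MonoidAlgebra.one_def, sub_self]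
    rw [Pi.smul_apply, smul_eq_mul, map_mul, this, zero_mul, Pi.zero_apply])
  choose y' hy' using fun j => mp_surjB π (fun b => ⟨t b, ht b⟩) (y j)
  have hyy : y = fun j => mp π (y' j) := by
    funext j
    exact (hy' j).symm
  set w := x - Matrix.vecMul y' d2 with hw
  have hw0 : ∀ j, mp π (w j) = 0 := by
    intro j
    have h1 : mp π (Matrix.vecMul y' d2 j) = mp π (x j) := by
      have h0 := congrFun hy j
      rw [hyy, vecMul_mpB] at h0
      exact h0
    rw [hw, Pi.sub_apply, map_sub, h1, sub_self]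
  have hwd : Matrix.vecMul w d1 = Matrix.vecMul x d1 := by
    have h0 : Matrix.vecMul (Matrix.vecMul y' d2) d1 = 0 := by
      rw [Matrix.vecMul_vecMul, h.d2d1, Matrix.vecMul_zero]
    rw [hw, Matrix.sub_vecMul, h0, sub_zero]
  have h1 : μ (lamB m (Matrix.vecMul w d1)) = 0 := by
    rw [vecMul_rowsB, lamB_sum, map_sum]
    apply Finset.sum_eq_zero
    intro i _
    rw [lamB_smul, hμ2 _ (by rw [aug_lamB, h.md1 i]), hw0, map_zero]
  rw [hwd, hxd, lamB_smul, sub_mul, one_mul, map_sub, hμ1 ⟨κ, hκ⟩, aug_lamB, hcs1, one_smul,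
    add_sub_cancel_right] at h1
  have h2 : Abelianization.of (⟨κ, hκ⟩ : π.ker) = 1 := by
    have := congrArg Additive.toMul h1
    exact this
  have h3 : (⟨κ, hκ⟩ : π.ker) ∈ commutator π.ker := by
    rw [← Abelianization.ker_of]
    exact h2
  have h4 : κ ∈ (commutator π.ker).map π.ker.subtype := ⟨⟨κ, hκ⟩, h3, rfl⟩
  rwa [Subgroup.map_subtype_commutator] at h4

end Pool.Agent.PDF
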