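import Mathlib

/-!
# Blueprint PDF: definitions for the torsion part

`Fg r` is the free group of rank `r`; `ev f` extends an integer valued function `f` on a group
additively to the integral group ring; `aug` is the augmentation; `modD n` is the reduction of the
group ring modulo the `n`-th derived subgroup; `matRep rho` extends a matrix representation `rho` to
square matrices over the group ring.
-/

set_option autoImplicit false

namespace Pool.Agent.PDF

/-- the free group of rank `r` -/
abbrev Fg (r : ℕ) : Type := FreeGroup (Fin r)

/-- additive extension of `f : G → ℤ` to the integral group ring -/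
noncomputable def ev {G : Type*} (f : G → ℤ) : MonoidAlgebra ℤ G →+ ℤ :=
  (Finsupp.liftAddHom fun g => AddMonoidHom.mulRight (f g)).comp
    (MonoidAlgebra.coeffAddEquiv (R := ℤ) (M := G)).toAddMonoidHom

@[simp] theorem ev_single {G : Type*} (f : G → ℤ) (g : G) (n : ℤ) :
    ev f (MonoidAlgebra.single g n) = n * f g := by
  simp [ev]

theorem ev_add_fun {G : Type*} (f f' : G → ℤ) (x : MonoidAlgebra ℤ G) :
    ev (f + f') x = ev f x + ev f' x := by
  induction x using MonoidAlgebra.induction_linear with
  | zero => simp
  | add x y hx hy => simp [hx, hy]; ring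
  | single m a => simp; ring

theorem ev_smul_fun {G : Type*} (a : ℤ) (f : G → ℤ) (x : MonoidAlgebra ℤ G) :
    ev (fun g => a * f g) x = a * ev f x := by
  induction x using MonoidAlgebra.induction_linear with
  | zero => simp
  | add x y hx hy => simp [hx, hy]; ring
  | single m b => simp; ring

/-- the augmentation of the integral group ring -/
noncomputable def aug {G : Type*} [Group G] : MonoidAlgebra ℤ G →+* ℤ :=
  (MonoidAlgebra.lift ℤ ℤ G (1 : G →* ℤ)).toRingHom

@[simp] theorem aug_single {G : Type*} [Group G] (g : G) (n : ℤ) :
    aug (MonoidAlgebra.single g n) = n := by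
  simp [aug]

theorem aug_eq_ev {G : Type*} [Group G] (x : MonoidAlgebra ℤ G) :
    aug x = ev (fun _ => 1) x := by
  induction x using MonoidAlgebra.induction_linear with
  | zero => simp
  | add x y hx hy => simp [hx, hy]
  | single m b => simp

/-- reduction of the integral group ring modulo the `n`-th derived subgroup -/
noncomputable def modD {G : Type*} [Group G] (n : ℕ) :
    MonoidAlgebra ℤ G →+* MonoidAlgebra ℤ (G ⧸ derivedSeries G n) :=
  MonoidAlgebra.mapDomainRingHom ℤ (QuotientGroup.mk' (derivedSeries G n))

/-- the extension of a matrix representation of a group to the integral group ring -/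
noncomputable def gpRep {G R m : Type*} [Group G] [CommRing R] [Fintype m] [DecidableEq m]
    (ρ : G →* Matrix m m R) : MonoidAlgebra ℤ G →+* Matrix m m R :=
  (MonoidAlgebra.lift ℤ (Matrix m m R) G ρ).toRingHom

@[simp] theorem gpRep_single {G R m : Type*} [Group G] [CommRing R] [Fintype m] [DecidableEq m]
    (ρ : G →* Matrix m m R) (g : G) (a : ℤ) :
    gpRep ρ (MonoidAlgebra.single g a) = a • ρ g := by
  simp [gpRep]

/-- the extension of a matrix representation of a group to square matrices over the integral
group ring: every entry is replaced by a block -/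
noncomputable def matRep {G R m n : Type*} [Group G] [CommRing R] [Fintype m] [DecidableEq m]
    [Fintype n] [DecidableEq n]
    (ρ : G →* Matrix m m R) : Matrix n n (MonoidAlgebra ℤ G) →+* Matrix (n × m) (n × m) R :=
  (Matrix.compRingEquiv n m R).toRingHom.comp (gpRep ρ).mapMatrix

theorem matRep_apply {G R m n : Type*} [Group G] [CommRing R] [Fintype m] [DecidableEq m]
    [Fintype n] [DecidableEq n] (ρ : G →* Matrix m m R) (X : Matrix n n (MonoidAlgebra ℤ G))
    (i j : n × m) : matRep ρ X i j = gpRep ρ (X i.1 j.1) i.2 j.2 := rfl

theorem trace_matRep {G R m n : Type*} [Group G] [CommRing R] [Fintype m] [DecidableEq m]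
    [Fintype n] [DecidableEq n] (ρ : G →* Matrix m m R) (X : Matrix n n (MonoidAlgebra ℤ G)) :
    (matRep ρ X).trace = (gpRep ρ X.trace).trace := by
  simp only [Matrix.trace, Matrix.diag_apply, matRep_apply, Fintype.sum_prod_type, map_sum,
    Matrix.sum_apply]
  rw [Finset.sum_comm]

/-- class functions -/
def IsClassFn {G S : Type*} [Group G] (f : G → S) : Prop := ∀ g h, f (g * h) = f (h * g)

/-- `X` is left invertible modulo every term of the derived series -/
def InvAll {G n : Type*} [Group G] [Fintype n] [DecidableEq n]
    (X : Matrix n n (MonoidAlgebra ℤ G)) : Prop :=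
  ∀ k : ℕ, ∃ Y : Matrix n n (MonoidAlgebra ℤ G), (Y * X).map (modD k) = 1

/-- `X` has augmentation the identity matrix -/
def AugOne {G n : Type*} [Group G] [DecidableEq n]
    (X : Matrix n n (MonoidAlgebra ℤ G)) : Prop := X.map aug = 1

theorem ev_comp {G P : Type*} [Group G] [Group P] (φ : G →* P) (f : P → ℤ)
    (x : MonoidAlgebra ℤ G) :
    ev (fun g => f (φ g)) x = ev f (MonoidAlgebra.mapDomainRingHom ℤ φ x) := by
  induction x using MonoidAlgebra.induction_linear with
  | zero => simp
  | add x y hx hy => simp only [map_add, hx, hy]
  | single m b => simp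

end Pool.Agent.PDF
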