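import Pool.Agent.PDF.PDDefs

/-!
# Blueprint PDF, module ExtractCol

The dual structure: the columns (the functionals on the modules of the resolution), transposed with
the twisted anti-automorphism, again give the first terms of a projective resolution.

Notation: `A = ℤ[G]`, `E3 = toMat (i3 ∘ τ ∘ r3)`, `E2 = toMat (i2 ∘ r2)`, `D3 = toMat (i2 ∘ d2 ∘ r3)`,
`D2 = toMat (i1 ∘ d1 ∘ r2)` (`d2 : P3 → P2`, `d1 : P2 → P1`).
PROOF.
(0) Identities: `E3 E3 = E3`, `E2 E2 = E2`, `E3 D3 = D3` (`d2 ∘ τ = d2`, because `x - τ x` is in the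
kernel of `τ`, i.e. in the range of `d3`, which `d2` kills), `D3 E2 = D3`, `E2 D2 = D2`, `D3 D2 = 0`.
(1) For a column `w : Fin n → A` let `fn w : P → A`, `fn w x = ∑ j, (i x) j * w j`, a left linear
functional on `P` (`P = P1, P2, P3`).  For a functional `f` on `P` the column
`col f j = f (r (Pi.single j 1))` satisfies `fn (col f) = f` (`x = r (i x)`), and
`(toMat (i ∘ r)).mulVec (col f) = col f`; conversely `fn w` for `w = E w` determines `w`:
`col (fn w) = E w = w`.
(2) The sign: let `f0` be the generator of `H^3`.  For `g ∈ G` the functional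
`x ↦ f0 x * single g 1` is killed by `d3`, so it is `n_g • f0 + b ∘ d2`; `n_g` is unique
(`hf0u`), `n_1 = 1`, `n_{g h} = n_g n_h` (right multiplication maps `b ∘ d2` to `b' ∘ d2`), so
`n_g = ± 1` and `s g = n_g` is a homomorphism `s : G →* ℤˣ`.
(3) For every functional `f` on `P3` with `f ∘ d3 = 0` let `ν f` be the unique integer with
`f = ν f • f0 + b ∘ d2` for some `b`; `ν` is additive and `ν (f · g) = s g * ν f`, so
`ν (f · a) = ev (fun g => s g) a * ν f` for `a ∈ A` (`f · a` is `x ↦ f x * a`).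
For a column `w` with `E3 w = w`: `fn w = fn w ∘ τ` is killed by `d3`.
Let `m' j = ν (fn (E3 column j))`.  For `w = E3 w = ∑ j, (column j of E3) * w j`:
`ν (fn w) = ∑ j, m' j * ev (fun g => s g) (w j)`.
(4) Translation: a row `v` over `A` with `v ᵥ* (dag s E3) = v` corresponds to the column
`w j = iota s (v j)`, `v j = iota s (w j)` with `E3 w = w`; and
`eps m' v = ∑ j, aug (iota s (w j)) * m' j = ν (fn w)` (`aug_iota`).  Similarly for the other
matrices: `(v ᵥ* dag s M) i = iota s ((M w) i)`.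
(5) Fields of `Half (dag s E3) (dag s E2) (dag s D3) (dag s D2) m'`: the identities from (0) by
`dag_mul`; `me0`: `eps m' (row i of dag s E3) = ν (fn (column i of E3)) = m' i`;
`md1`: `ν (fn (column i of D3)) = 0`, because `column i of D3` is `col (c ∘ d2)` with `c` the
`i`-th coordinate functional of `i2` on `P2`... (`fn (column i of D3) = (coordinate i of i2) ∘ d2`);
`one`: `w = col f0`: `f0 ∘ τ = f0` (`f0` kills the kernel of `τ`), so `E3 w = w` and `ν f0 = 1`;
`ex0`: `ν (fn w) = 0` gives `fn w = b ∘ d2`, so `w = D3 (col b)`;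
`ex1`: a column `w` with `E2 w = w`, `D3 w = 0` gives `fn w ∘ d2 = 0`, so `fn w = b ∘ d1` by `hcoh2`,
and `w = D2 (col b)`.
-/

set_option autoImplicit false

namespace Pool.Agent.PDF

/-- the functional on `P` given by a column -/
noncomputable def fnc {A P : Type} [Ring A] [AddCommGroup P] [Module A P] {n : ℕ}
    (i : P →ₗ[A] (Fin n → A)) (w : Fin n → A) : P →ₗ[A] A where
  toFun x := i x ⬝ᵥ w
  map_add' x y := by simp [add_dotProduct]
  map_smul' a x := by simp [smul_dotProduct]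

theorem fnc_apply {A P : Type} [Ring A] [AddCommGroup P] [Module A P] {n : ℕ}
    (i : P →ₗ[A] (Fin n → A)) (w : Fin n → A) (x : P) : fnc i w x = i x ⬝ᵥ w := rfl

/-- the column of a functional on `P` -/
def colc {A P : Type} [Ring A] [AddCommGroup P] [Module A P] {n : ℕ}
    (r : (Fin n → A) →ₗ[A] P) (f : P →ₗ[A] A) : Fin n → A := fun j => f (r (Pi.single j 1))

theorem dot_colc {A P : Type} [Ring A] [AddCommGroup P] [Module A P] {n : ℕ}
    (r : (Fin n → A) →ₗ[A] P) (f : P →ₗ[A] A) (v : Fin n → A) :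
    v ⬝ᵥ colc r f = f (r v) := by
  have hv : v = ∑ i, v i • (Pi.single i (1 : A) : Fin n → A) := by
    funext j
    simp [Finset.sum_apply, Pi.single_apply]
  conv_rhs => rw [hv, map_sum, map_sum]
  simp [dotProduct, colc]

theorem fnc_colc {A P : Type} [Ring A] [AddCommGroup P] [Module A P] {n : ℕ}
    (i : P →ₗ[A] (Fin n → A)) (r : (Fin n → A) →ₗ[A] P) (h : ∀ x, r (i x) = x)
    (f : P →ₗ[A] A) : fnc i (colc r f) = f := by
  refine LinearMap.ext fun x => ?_
  rw [fnc_apply, dot_colc, h]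

theorem mulVec_toMat' {A P Q : Type} [Ring A] [AddCommGroup P] [Module A P] [AddCommGroup Q]
    [Module A Q] {n m : ℕ} (i : Q →ₗ[A] (Fin m → A)) (φ : P →ₗ[A] Q)
    (r : (Fin n → A) →ₗ[A] P) (w : Fin m → A) :
    (toMat (i ∘ₗ φ ∘ₗ r)).mulVec w = colc r (fnc i w ∘ₗ φ) := rfl

/-- right multiplication -/
def rmul {A : Type} [Ring A] (a : A) : A →ₗ[A] A := LinearMap.toSpanSingleton A A a

theorem rmul_apply {A : Type} [Ring A] (a x : A) : rmul a x = x * a := rfl

theorem vecMul_dag {G : Type} [Group G] (s : G →* ℤˣ) {a b : ℕ}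
    (M : Matrix (Fin a) (Fin b) (MonoidAlgebra ℤ G)) (v : Fin b → MonoidAlgebra ℤ G) :
    Matrix.vecMul v (dag s M) = fun i => iota s (M.mulVec (fun j => iota s (v j)) i) := by
  funext i
  simp only [Matrix.vecMul, Matrix.mulVec, dotProduct, dag_apply, map_sum, iota_mul, iota_iota]

theorem vecMul_dag' {G : Type} [Group G] (s : G →* ℤˣ) {a b : ℕ}
    (M : Matrix (Fin a) (Fin b) (MonoidAlgebra ℤ G)) (w : Fin b → MonoidAlgebra ℤ G) :
    Matrix.vecMul (fun j => iota s (w j)) (dag s M) = fun i => iota s (M.mulVec w i) := by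
  rw [vecMul_dag]
  simp only [iota_iota]

theorem eps_iota {G : Type} [Group G] (s : G →* ℤˣ) {n : ℕ} (m : Fin n → ℤ)
    (w : Fin n → MonoidAlgebra ℤ G) :
    eps m (fun j => iota s (w j)) = ∑ j, m j * ev (fun g => ((s g : ℤˣ) : ℤ)) (w j) := by
  simp only [eps, aug_iota]
  exact Finset.sum_congr rfl fun j _ => mul_comm _ _

theorem extract_col {G : Type} [Group G] {P1 P2 P3 P4 : Type}
    [AddCommGroup P1] [Module (MonoidAlgebra ℤ G) P1]
    [AddCommGroup P2] [Module (MonoidAlgebra ℤ G) P2]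
    [AddCommGroup P3] [Module (MonoidAlgebra ℤ G) P3]
    [AddCommGroup P4] [Module (MonoidAlgebra ℤ G) P4]
    (d1 : P2 →ₗ[MonoidAlgebra ℤ G] P1) (d2 : P3 →ₗ[MonoidAlgebra ℤ G] P2)
    (d3 : P4 →ₗ[MonoidAlgebra ℤ G] P3) (h12 : d1 ∘ₗ d2 = 0) (h23 : d2 ∘ₗ d3 = 0)
    (hcoh2 : ∀ f : P2 →ₗ[MonoidAlgebra ℤ G] MonoidAlgebra ℤ G, f ∘ₗ d2 = 0 →
      ∃ g : P1 →ₗ[MonoidAlgebra ℤ G] MonoidAlgebra ℤ G, f = g ∘ₗ d1)
    (f0 : P3 →ₗ[MonoidAlgebra ℤ G] MonoidAlgebra ℤ G) (hf0 : f0 ∘ₗ d3 = 0)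
    (hf0g : ∀ f : P3 →ₗ[MonoidAlgebra ℤ G] MonoidAlgebra ℤ G, f ∘ₗ d3 = 0 →
      ∃ (n : ℤ) (g : P2 →ₗ[MonoidAlgebra ℤ G] MonoidAlgebra ℤ G), f = n • f0 + g ∘ₗ d2)
    (hf0u : ∀ (n : ℤ) (g : P2 →ₗ[MonoidAlgebra ℤ G] MonoidAlgebra ℤ G),
      n • f0 = g ∘ₗ d2 → n = 0)
    (τ : P3 →ₗ[MonoidAlgebra ℤ G] P3) (hτ : τ ∘ₗ τ = τ) (hτk : ∀ x, τ x = 0 ↔ ∃ y, d3 y = x)
    {n1 n2 n3 : ℕ}
    (i1 : P1 →ₗ[MonoidAlgebra ℤ G] (Fin n1 → MonoidAlgebra ℤ G))
    (r1 : (Fin n1 → MonoidAlgebra ℤ G) →ₗ[MonoidAlgebra ℤ G] P1) (h1 : ∀ x, r1 (i1 x) = x)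
    (i2 : P2 →ₗ[MonoidAlgebra ℤ G] (Fin n2 → MonoidAlgebra ℤ G))
    (r2 : (Fin n2 → MonoidAlgebra ℤ G) →ₗ[MonoidAlgebra ℤ G] P2) (h2 : ∀ x, r2 (i2 x) = x)
    (i3 : P3 →ₗ[MonoidAlgebra ℤ G] (Fin n3 → MonoidAlgebra ℤ G))
    (r3 : (Fin n3 → MonoidAlgebra ℤ G) →ₗ[MonoidAlgebra ℤ G] P3) (h3 : ∀ x, r3 (i3 x) = x) :
    ∃ (s : G →* ℤˣ) (m' : Fin n3 → ℤ),
      Half (dag s (toMat (i3 ∘ₗ τ ∘ₗ r3))) (dag s (toMat (i2 ∘ₗ r2)))
        (dag s (toMat (i2 ∘ₗ d2 ∘ₗ r3))) (dag s (toMat (i1 ∘ₗ d1 ∘ₗ r2))) m' := by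
  classical
  -- the relation `f = n f₀ + b ∘ d₂`
  let Rel : (P3 →ₗ[MonoidAlgebra ℤ G] MonoidAlgebra ℤ G) → ℤ → Prop := fun f n =>
    ∃ b : P2 →ₗ[MonoidAlgebra ℤ G] MonoidAlgebra ℤ G, f = n • f0 + b ∘ₗ d2
  have Rel_uniq : ∀ f n n', Rel f n → Rel f n' → n = n' := by
    rintro f n n' ⟨b, hb⟩ ⟨b', hb'⟩
    have h : (n - n') • f0 = (b' - b) ∘ₗ d2 := by
      rw [sub_smul, LinearMap.sub_comp, sub_eq_sub_iff_add_eq_add, ← hb, hb', add_comm]
    have := hf0u _ _ h
    omega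
  have Rel_add : ∀ f n f' n', Rel f n → Rel f' n' → Rel (f + f') (n + n') := by
    rintro f n f' n' ⟨b, hb⟩ ⟨b', hb'⟩
    refine ⟨b + b', ?_⟩
    rw [hb, hb', add_smul, LinearMap.add_comp]
    abel
  have Rel_smul : ∀ (c : ℤ) f n, Rel f n → Rel (c • f) (c * n) := by
    rintro c f n ⟨b, hb⟩
    refine ⟨c • b, ?_⟩
    rw [hb, smul_add, smul_smul, LinearMap.smul_comp]
  have Rel_zero : Rel 0 0 := ⟨0, by simp⟩
  have Rel_comp : ∀ b : P2 →ₗ[MonoidAlgebra ℤ G] MonoidAlgebra ℤ G, Rel (b ∘ₗ d2) 0 :=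
    fun b => ⟨b, by simp⟩
  have Rel_f0 : Rel f0 1 := ⟨0, by simp⟩
  -- the sign
  have hex : ∀ g : G, ∃ n : ℤ, Rel (rmul (MonoidAlgebra.single g 1) ∘ₗ f0) n := by
    intro g
    obtain ⟨n, b, h⟩ := hf0g (rmul (MonoidAlgebra.single g 1) ∘ₗ f0)
      (by rw [LinearMap.comp_assoc, hf0, LinearMap.comp_zero])
    exact ⟨n, b, h⟩
  choose ng hng using hex
  have Rel_g : ∀ (g : G) f n, Rel f n →
      Rel (rmul (MonoidAlgebra.single g 1) ∘ₗ f) (n * ng g) := by
    rintro g f n ⟨b, hb⟩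
    have h1 : rmul (MonoidAlgebra.single g 1) ∘ₗ f =
        n • (rmul (MonoidAlgebra.single g 1) ∘ₗ f0) +
          (rmul (MonoidAlgebra.single g 1) ∘ₗ b) ∘ₗ d2 := by
      refine LinearMap.ext fun x => ?_
      simp only [hb, LinearMap.comp_apply, LinearMap.add_apply, LinearMap.smul_apply, rmul_apply,
        add_mul, smul_mul_assoc]
    rw [h1]
    have := Rel_add _ _ _ _ (Rel_smul n _ _ (hng g))
      (Rel_comp (rmul (MonoidAlgebra.single g 1) ∘ₗ b))
    simpa using this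
  have ng_one : ng 1 = 1 := by
    apply Rel_uniq _ _ _ (hng 1)
    have : rmul (MonoidAlgebra.single (1 : G) (1 : ℤ)) ∘ₗ f0 = f0 := by
      refine LinearMap.ext fun x => ?_
      simp [rmul_apply, ← MonoidAlgebra.one_def]
    rw [this]
    exact Rel_f0
  have ng_mul : ∀ g h, ng (g * h) = ng g * ng h := by
    intro g h
    apply Rel_uniq _ _ _ (hng (g * h))
    have : rmul (MonoidAlgebra.single (g * h) (1 : ℤ)) ∘ₗ f0 =
        rmul (MonoidAlgebra.single h (1 : ℤ)) ∘ₗ (rmul (MonoidAlgebra.single g (1 : ℤ)) ∘ₗ f0) := by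
      refine LinearMap.ext fun x => ?_
      simp [rmul_apply, mul_assoc, MonoidAlgebra.single_mul_single]
    rw [this]
    exact Rel_g h _ _ (hng g)
  let s0 : G →* ℤ := { toFun := ng, map_one' := ng_one, map_mul' := ng_mul }
  let s : G →* ℤˣ := s0.toHomUnits
  have hs : ∀ g, ((s g : ℤˣ) : ℤ) = ng g := fun g => rfl
  have hs' : (fun g => ((s g : ℤˣ) : ℤ)) = ng := rfl
  have Rel_a : ∀ (a : MonoidAlgebra ℤ G) f n, Rel f n → Rel (rmul a ∘ₗ f) (n * ev ng a) := by
    intro a f n hf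
    induction a using MonoidAlgebra.induction_linear with
    | zero =>
      have : rmul (0 : MonoidAlgebra ℤ G) ∘ₗ f = 0 := LinearMap.ext fun x => by simp [rmul_apply]
      rw [this]; simpa using Rel_zero
    | add x y hx hy =>
      have : rmul (x + y) ∘ₗ f = rmul x ∘ₗ f + rmul y ∘ₗ f := by
        exact LinearMap.ext fun z => by simp [rmul_apply, mul_add]
      rw [this, map_add, mul_add]
      exact Rel_add _ _ _ _ hx hy
    | single g c =>
      have : rmul (MonoidAlgebra.single g c) ∘ₗ f =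
          c • (rmul (MonoidAlgebra.single g 1) ∘ₗ f) := by
        refine LinearMap.ext fun z => ?_
        have h1 : MonoidAlgebra.single g c = c • MonoidAlgebra.single g (1 : ℤ) := by
          rw [MonoidAlgebra.smul_single, smul_eq_mul, mul_one]
        rw [LinearMap.comp_apply, rmul_apply, h1, mul_smul_comm]
        rfl
      rw [this, ev_single]
      have h := Rel_smul c _ _ (Rel_g g f n hf)
      have e : c * (n * ng g) = n * (c * ng g) := by ring
      rwa [e] at h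
  -- the projection `τ`
  have hd3τ : ∀ x, ∃ y, d3 y = x - τ x := by
    intro x
    apply (hτk _).1
    rw [map_sub, sub_eq_zero]
    exact (LinearMap.congr_fun hτ x).symm
  have hτd3 : τ ∘ₗ d3 = 0 := by
    refine LinearMap.ext fun y => ?_
    exact (hτk _).2 ⟨y, rfl⟩
  have hfτ : ∀ f : P3 →ₗ[MonoidAlgebra ℤ G] MonoidAlgebra ℤ G, f ∘ₗ d3 = 0 → f ∘ₗ τ = f := by
    intro f hf
    refine LinearMap.ext fun x => ?_
    obtain ⟨y, hy⟩ := hd3τ x
    have h := LinearMap.congr_fun hf y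
    simp only [LinearMap.comp_apply, hy, map_sub, LinearMap.zero_apply] at h
    exact (sub_eq_zero.1 h).symm
  have hd2τ : d2 ∘ₗ τ = d2 := by
    refine LinearMap.ext fun x => ?_
    obtain ⟨y, hy⟩ := hd3τ x
    have h := LinearMap.congr_fun h23 y
    simp only [LinearMap.comp_apply, hy, map_sub, LinearMap.zero_apply] at h
    exact (sub_eq_zero.1 h).symm
  have hττ : ∀ x, τ (τ x) = τ x := fun x => LinearMap.congr_fun hτ x
  have hd2τ' : ∀ x, d2 (τ x) = d2 x := fun x => LinearMap.congr_fun hd2τ x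
  have h12' : ∀ x, d1 (d2 x) = 0 := fun x => LinearMap.congr_fun h12 x
  -- the weights
  have hexm : ∀ j : Fin n3, ∃ n : ℤ, Rel (fnc i3 (Pi.single j 1) ∘ₗ τ) n := by
    intro j
    obtain ⟨n, b, h⟩ := hf0g (fnc i3 (Pi.single j 1) ∘ₗ τ)
      (by rw [LinearMap.comp_assoc, hτd3, LinearMap.comp_zero])
    exact ⟨n, b, h⟩
  choose m' hm' using hexm
  have Rel_sum : ∀ (S : Finset (Fin n3)) (F : Fin n3 → P3 →ₗ[MonoidAlgebra ℤ G] MonoidAlgebra ℤ G)
      (N : Fin n3 → ℤ), (∀ j, Rel (F j) (N j)) → Rel (∑ j ∈ S, F j) (∑ j ∈ S, N j) := by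
    intro S F N h
    induction S using Finset.induction_on with
    | empty => simpa using Rel_zero
    | insert a S ha ih =>
      rw [Finset.sum_insert ha, Finset.sum_insert ha]
      exact Rel_add _ _ _ _ (h a) ih
  have key : ∀ w : Fin n3 → MonoidAlgebra ℤ G,
      Rel (fnc i3 w ∘ₗ τ) (eps m' (fun j => iota s (w j))) := by
    intro w
    have h1 : fnc i3 w ∘ₗ τ = ∑ j, rmul (w j) ∘ₗ (fnc i3 (Pi.single j 1) ∘ₗ τ) := by
      refine LinearMap.ext fun x => ?_
      simp only [LinearMap.comp_apply, LinearMap.sum_apply, fnc_apply, rmul_apply,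
        dotProduct_single, mul_one]
      rfl
    rw [h1, eps_iota, hs']
    exact Rel_sum _ _ _ fun j => Rel_a _ _ _ (hm' j)
  refine ⟨s, m', ?_⟩
  have hE3 : ∀ w, (toMat (i3 ∘ₗ τ ∘ₗ r3)).mulVec w = colc r3 (fnc i3 w ∘ₗ τ) :=
    fun w => mulVec_toMat' i3 τ r3 w
  have hE2 : ∀ w, (toMat (i2 ∘ₗ r2)).mulVec w = colc r2 (fnc i2 w) :=
    fun w => mulVec_toMat' i2 LinearMap.id r2 w
  have hD3 : ∀ w, (toMat (i2 ∘ₗ d2 ∘ₗ r3)).mulVec w = colc r3 (fnc i2 w ∘ₗ d2) :=
    fun w => mulVec_toMat' i2 d2 r3 w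
  have hD2 : ∀ w, (toMat (i1 ∘ₗ d1 ∘ₗ r2)).mulVec w = colc r2 (fnc i1 w ∘ₗ d1) :=
    fun w => mulVec_toMat' i1 d1 r2 w
  have hrow : ∀ {a b : ℕ} (M : Matrix (Fin a) (Fin b) (MonoidAlgebra ℤ G)) (i : Fin b),
      dag s M i = fun j => iota s (M.mulVec (Pi.single i 1) j) := by
    intro a b M i
    funext j
    simp [dag_apply]
  exact
    { e0e0 := by
        rw [← dag_mul, ← toMat_comp]
        exact congrArg (fun L => dag s (toMat L)) (LinearMap.ext fun v => by
          simp only [LinearMap.comp_apply, h3, hττ])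
      e1e1 := by
        rw [← dag_mul, ← toMat_comp]
        exact congrArg (fun L => dag s (toMat L)) (LinearMap.ext fun v => by
          simp only [LinearMap.comp_apply, h2])
      e1d1 := by
        rw [← dag_mul, ← toMat_comp]
        exact congrArg (fun L => dag s (toMat L)) (LinearMap.ext fun v => by
          simp only [LinearMap.comp_apply, h2])
      d1e0 := by
        rw [← dag_mul, ← toMat_comp]
        exact congrArg (fun L => dag s (toMat L)) (LinearMap.ext fun v => by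
          simp only [LinearMap.comp_apply, h3, hd2τ'])
      me0 := by
        intro i
        rw [hrow]
        apply Rel_uniq _ _ _ (key _)
        have : fnc i3 ((toMat (i3 ∘ₗ τ ∘ₗ r3)).mulVec (Pi.single i 1)) ∘ₗ τ =
            fnc i3 (Pi.single i 1) ∘ₗ τ := by
          rw [hE3, fnc_colc i3 r3 h3, LinearMap.comp_assoc, hτ]
        rw [this]
        exact hm' i
      md1 := by
        intro i
        rw [hrow]
        apply Rel_uniq _ _ _ (key _)
        have : fnc i3 ((toMat (i2 ∘ₗ d2 ∘ₗ r3)).mulVec (Pi.single i 1)) ∘ₗ τ =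
            fnc i2 (Pi.single i 1) ∘ₗ d2 := by
          rw [hD3, fnc_colc i3 r3 h3, LinearMap.comp_assoc, hd2τ]
        rw [this]
        exact Rel_comp _
      one := by
        refine ⟨fun j => iota s (colc r3 f0 j), ?_, ?_⟩
        · rw [vecMul_dag', hE3, fnc_colc i3 r3 h3, hfτ f0 hf0]
        · apply Rel_uniq _ _ _ (key _)
          rw [fnc_colc i3 r3 h3, hfτ f0 hf0]
          exact Rel_f0
      ex0 := by
        intro v hv hv0
        set w : Fin n3 → MonoidAlgebra ℤ G := fun j => iota s (v j) with hw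
        have hvw : v = fun j => iota s (w j) := by funext j; simp [hw, iota_iota]
        have hEw : (toMat (i3 ∘ₗ τ ∘ₗ r3)).mulVec w = w := by
          rw [vecMul_dag] at hv
          funext j
          have := congrFun hv j
          rw [hw]
          simp only
          rw [← this, iota_iota]
        have hk := key w
        rw [← hvw, hv0] at hk
        obtain ⟨b, hb⟩ := hk
        rw [zero_smul, zero_add] at hb
        refine ⟨fun j => iota s (colc r2 b j), ?_⟩
        rw [vecMul_dag', hD3, fnc_colc i2 r2 h2, ← hb, ← hE3, hEw, ← hvw]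
      d2e1 := by
        rw [← dag_mul, ← toMat_comp]
        exact congrArg (fun L => dag s (toMat L)) (LinearMap.ext fun v => by
          simp only [LinearMap.comp_apply, h2])
      d2d1 := by
        rw [← dag_mul, ← toMat_comp]
        have h0 : (i1 ∘ₗ d1 ∘ₗ r2) ∘ₗ i2 ∘ₗ d2 ∘ₗ r3 = 0 := LinearMap.ext fun v => by
          simp only [LinearMap.comp_apply, h2, h12', map_zero, LinearMap.zero_apply]
        rw [h0]
        refine Matrix.ext fun i j => ?_
        simp [dag_apply, toMat]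
      ex1 := by
        intro v hv hv0
        set w : Fin n2 → MonoidAlgebra ℤ G := fun j => iota s (v j) with hw
        have hvw : v = fun j => iota s (w j) := by funext j; simp [hw, iota_iota]
        have hEw : (toMat (i2 ∘ₗ r2)).mulVec w = w := by
          rw [vecMul_dag] at hv
          funext j
          have := congrFun hv j
          rw [hw]
          simp only
          rw [← this, iota_iota]
        have hDw : (toMat (i2 ∘ₗ d2 ∘ₗ r3)).mulVec w = 0 := by
          rw [vecMul_dag] at hv0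
          funext j
          have := congrArg (iota s) (congrFun hv0 j)
          simpa [iota_iota] using this
        have h0 : fnc i2 w ∘ₗ d2 = 0 := by
          have h := congrArg (fnc i3) (hDw.symm.trans (hD3 w))
          rw [fnc_colc i3 r3 h3] at h
          rw [← h]
          refine LinearMap.ext fun x => ?_
          simp [fnc_apply]
        obtain ⟨g, hg⟩ := hcoh2 _ h0
        refine ⟨fun j => iota s (colc r1 g j), ?_⟩
        rw [vecMul_dag', hD2, fnc_colc i1 r1 h1, ← hg, ← hE2, hEw, ← hvw] }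

end Pool.Agent.PDF
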