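import Pool.Agent.PDF.PDDefs

/-!
# Blueprint PDF, module ExtractRow

The row structure: from the first terms of a projective resolution, with the finitely generated
projective modules presented as retracts of free modules.

PROOF.  `A = ℤ[G]`.  `toMat_comp` gives the matrix identities from identities of maps, e.g.
`e1 * d1 = toMat ((i0 ∘ d0 ∘ r1) ∘ (i1 ∘ r1)) = toMat (i0 ∘ d0 ∘ r1)`.
`vecMul_toMat` : `v ᵥ* toMat L = L v`.
With `m j = ε (r0 (Pi.single j 1))` one has `eps m v = ε (r0 v)` for every row `v`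
(`v = ∑ j, v j • Pi.single j 1`, and `ε (a • x) = aug a * ε x` for `a ∈ A`, by additivity from
`hε`).  So `eps m (e0 i) = ε (r0 (i0 (r0 (single i 1)))) = m i`, and
`eps m (d1 i) = ε (d0 (r1 (single i 1))) = 0` by `hex0`.
`one`: `v = i0 x` with `ε x = 1`.
`ex0`: if `v ᵥ* e0 = v`, `eps m v = 0` then `ε (r0 v) = 0`, `r0 v = d0 y`,
`v = i0 (r0 v) = i0 (d0 y) = (i1 y) ᵥ* d1`.
`ex1`: if `v ᵥ* e1 = v`, `v ᵥ* d1 = 0` then `i0 (d0 (r1 v)) = 0`, `d0 (r1 v) = 0` (`i0` injective),
`r1 v = d1' y`, `v = i1 (r1 v) = i1 (d1' y) = (i2 y) ᵥ* d2`.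
-/

set_option autoImplicit false

namespace Pool.Agent.PDF

theorem extract_row {G : Type} [Group G] {P0 P1 P2 : Type}
    [AddCommGroup P0] [Module (MonoidAlgebra ℤ G) P0]
    [AddCommGroup P1] [Module (MonoidAlgebra ℤ G) P1]
    [AddCommGroup P2] [Module (MonoidAlgebra ℤ G) P2]
    (d0 : P1 →ₗ[MonoidAlgebra ℤ G] P0) (d1 : P2 →ₗ[MonoidAlgebra ℤ G] P1) (ε : P0 →+ ℤ)
    (hε : ∀ (g : G) (x : P0), ε (MonoidAlgebra.of ℤ G g • x) = ε x)
    (hsurj : Function.Surjective ε)
    (hex0 : ∀ x : P0, ε x = 0 ↔ ∃ y, d0 y = x)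
    (hex1 : ∀ x : P1, d0 x = 0 ↔ ∃ y, d1 y = x)
    {n0 n1 n2 : ℕ}
    (i0 : P0 →ₗ[MonoidAlgebra ℤ G] (Fin n0 → MonoidAlgebra ℤ G))
    (r0 : (Fin n0 → MonoidAlgebra ℤ G) →ₗ[MonoidAlgebra ℤ G] P0) (h0 : ∀ x, r0 (i0 x) = x)
    (i1 : P1 →ₗ[MonoidAlgebra ℤ G] (Fin n1 → MonoidAlgebra ℤ G))
    (r1 : (Fin n1 → MonoidAlgebra ℤ G) →ₗ[MonoidAlgebra ℤ G] P1) (h1 : ∀ x, r1 (i1 x) = x)
    (i2 : P2 →ₗ[MonoidAlgebra ℤ G] (Fin n2 → MonoidAlgebra ℤ G))
    (r2 : (Fin n2 → MonoidAlgebra ℤ G) →ₗ[MonoidAlgebra ℤ G] P2) (h2 : ∀ x, r2 (i2 x) = x) :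
    Half (toMat (i0 ∘ₗ r0)) (toMat (i1 ∘ₗ r1)) (toMat (i0 ∘ₗ d0 ∘ₗ r1))
      (toMat (i1 ∘ₗ d1 ∘ₗ r2)) (fun j => ε (r0 (Pi.single j 1))) := by
  classical
  have hεa : ∀ (a : MonoidAlgebra ℤ G) (x : P0), ε (a • x) = aug a * ε x := by
    intro a x
    induction a using MonoidAlgebra.induction_linear with
    | zero => simp
    | add y z hy hz => simp only [add_smul, map_add, hy, hz, add_mul]
    | single g c =>
      have h1 : MonoidAlgebra.single g c = c • MonoidAlgebra.of ℤ G g := by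
        rw [MonoidAlgebra.of_apply, MonoidAlgebra.smul_single, smul_eq_mul, mul_one]
      rw [aug_single, h1, smul_assoc, map_zsmul, hε, smul_eq_mul]
  have heps : ∀ v : Fin n0 → MonoidAlgebra ℤ G,
      eps (fun j => ε (r0 (Pi.single j 1))) v = ε (r0 v) := by
    intro v
    have hv : v = ∑ i, v i • (Pi.single i (1 : MonoidAlgebra ℤ G) :
        Fin n0 → MonoidAlgebra ℤ G) := by
      funext j
      simp [Finset.sum_apply, Pi.single_apply]
    conv_rhs => rw [hv, map_sum, map_sum]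
    simp only [eps, map_smul, hεa]
  have hex0' : ∀ y, ε (d0 y) = 0 := fun y => (hex0 _).2 ⟨y, rfl⟩
  have hex1' : ∀ y, d0 (d1 y) = 0 := fun y => (hex1 _).2 ⟨y, rfl⟩
  have hrow : ∀ {a b : ℕ} (L : (Fin a → MonoidAlgebra ℤ G) →ₗ[MonoidAlgebra ℤ G]
      (Fin b → MonoidAlgebra ℤ G)) (i : Fin a), toMat L i = L (Pi.single i 1) := fun L i => rfl
  exact
    { e0e0 := by
        rw [← toMat_comp]
        exact congrArg toMat (LinearMap.ext fun v => by
          simp only [LinearMap.comp_apply, h0])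
      e1e1 := by
        rw [← toMat_comp]
        exact congrArg toMat (LinearMap.ext fun v => by
          simp only [LinearMap.comp_apply, h1])
      e1d1 := by
        rw [← toMat_comp]
        exact congrArg toMat (LinearMap.ext fun v => by
          simp only [LinearMap.comp_apply, h1])
      d1e0 := by
        rw [← toMat_comp]
        exact congrArg toMat (LinearMap.ext fun v => by
          simp only [LinearMap.comp_apply, h0])
      me0 := by
        intro i
        rw [hrow, heps, LinearMap.comp_apply, h0]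
      md1 := by
        intro i
        rw [hrow, heps, LinearMap.comp_apply, h0, LinearMap.comp_apply, hex0']
      one := by
        obtain ⟨x, hx⟩ := hsurj 1
        refine ⟨i0 x, ?_, ?_⟩
        · rw [vecMul_toMat, LinearMap.comp_apply, h0]
        · rw [heps, h0, hx]
      ex0 := by
        intro v hv hv0
        rw [heps] at hv0
        rw [vecMul_toMat, LinearMap.comp_apply] at hv
        obtain ⟨y, hy⟩ := (hex0 _).1 hv0
        refine ⟨i1 y, ?_⟩
        rw [vecMul_toMat, LinearMap.comp_apply, LinearMap.comp_apply, h1, hy, hv]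
      d2e1 := by
        rw [← toMat_comp]
        exact congrArg toMat (LinearMap.ext fun v => by
          simp only [LinearMap.comp_apply, h1])
      d2d1 := by
        rw [← toMat_comp]
        have h : (i0 ∘ₗ d0 ∘ₗ r1) ∘ₗ i1 ∘ₗ d1 ∘ₗ r2 = 0 := LinearMap.ext fun v => by
          simp only [LinearMap.comp_apply, h1, hex1', map_zero, LinearMap.zero_apply]
        rw [h]
        refine Matrix.ext fun i j => ?_
        simp [toMat]
      ex1 := by
        intro v hv hv0
        rw [vecMul_toMat, LinearMap.comp_apply] at hv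
        rw [vecMul_toMat, LinearMap.comp_apply, LinearMap.comp_apply] at hv0
        have hd : d0 (r1 v) = 0 := by
          have := congrArg r0 hv0
          rwa [h0, map_zero] at this
        obtain ⟨y, hy⟩ := (hex1 _).1 hd
        refine ⟨i2 y, ?_⟩
        rw [vecMul_toMat, LinearMap.comp_apply, LinearMap.comp_apply, h2, hy, hv] }

end Pool.Agent.PDF
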