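import Pool.Agent.PDF.Trunc
import Pool.Agent.PDF.ExtractRow
import Pool.Agent.PDF.ExtractCol

/-!
# Blueprint PDF, module Extract

Matrix data of a `PD_3`-group.

PROOF.  Unfold `IsPD3`.  For each `i` choose a retraction of the finitely generated projective
module `P i` from a free module `Fin n_i → ℤ[G]` (`Module.Finite.exists_fin'`, `Module.projective_lifting_property`
or `Module.Projective` splitting of a surjection).  Get `τ` from `trunc`.  Apply `extract_row` to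
`P 0, P 1, P 2` and `extract_col` to `P 1, P 2, P 3, P 4`.
Note `toMat (i1 ∘ d 1 ∘ r2)` is the same matrix in both.
-/

set_option autoImplicit false

namespace Pool.Agent.PDF

theorem extract (G : Type) [Group G] (hG : IsPD3 G) :
    ∃ (n0 n1 n2 n3 : ℕ) (e0 : Matrix (Fin n0) (Fin n0) (MonoidAlgebra ℤ G))
      (e1 : Matrix (Fin n1) (Fin n1) (MonoidAlgebra ℤ G))
      (e2 : Matrix (Fin n2) (Fin n2) (MonoidAlgebra ℤ G))
      (e3 : Matrix (Fin n3) (Fin n3) (MonoidAlgebra ℤ G))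
      (d1 : Matrix (Fin n1) (Fin n0) (MonoidAlgebra ℤ G))
      (d2 : Matrix (Fin n2) (Fin n1) (MonoidAlgebra ℤ G))
      (d3 : Matrix (Fin n3) (Fin n2) (MonoidAlgebra ℤ G))
      (m : Fin n0 → ℤ) (m' : Fin n3 → ℤ) (s : G →* ℤˣ),
      Half e0 e1 d1 d2 m ∧ Half (dag s e3) (dag s e2) (dag s d3) (dag s d2) m' := by
  obtain ⟨N, P, hA, hM, hproj, hfin, hN, d, ε, hε, hsurj, hex0, hex, hcoh0, hcoh, f0, hf0, hf0g,
    hf0u⟩ := hG
  have retr : ∀ i, ∃ (n : ℕ) (ι : P i →ₗ[MonoidAlgebra ℤ G] (Fin n → MonoidAlgebra ℤ G))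
      (ρ : (Fin n → MonoidAlgebra ℤ G) →ₗ[MonoidAlgebra ℤ G] P i), ∀ x, ρ (ι x) = x := by
    intro i
    have := hproj i
    have := hfin i
    obtain ⟨n, ρ, hρ⟩ := Module.Finite.exists_fin' (MonoidAlgebra ℤ G) (P i)
    obtain ⟨ι, hι⟩ := Module.projective_lifting_property ρ LinearMap.id hρ
    exact ⟨n, ι, ρ, fun x => LinearMap.congr_fun hι x⟩
  obtain ⟨n0, i0, r0, h0⟩ := retr 0
  obtain ⟨n1, i1, r1, h1⟩ := retr 1
  obtain ⟨n2, i2, r2, h2⟩ := retr 2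
  obtain ⟨n3, i3, r3, h3⟩ := retr 3
  obtain ⟨τ, hτ, hτk⟩ := trunc N P hproj hfin hN d hex hcoh
  have hrow := extract_row (d 0) (d 1) ε hε hsurj hex0 (hex 0) i0 r0 h0 i1 r1 h1 i2 r2 h2
  have h12 : d 1 ∘ₗ d 2 = 0 := LinearMap.ext fun x => (hex 1 _).2 ⟨x, rfl⟩
  have h23 : d 2 ∘ₗ d 3 = 0 := LinearMap.ext fun x => (hex 2 _).2 ⟨x, rfl⟩
  obtain ⟨s, m', hcol⟩ := extract_col (d 1) (d 2) (d 3) h12 h23 (hcoh 1 (by norm_num)) f0 hf0
    hf0g hf0u τ hτ hτk i1 r1 h1 i2 r2 h2 i3 r3 h3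
  exact ⟨n0, n1, n2, n3, _, _, _, _, _, _, _, _, m', s, hrow, hcol⟩

end Pool.Agent.PDF
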