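import Pool.Agent.PDF.PDDefs

/-!
# Blueprint PDF, module FinIndex

A subgroup of finite index of a `PD_3`-group is a `PD_3`-group.

PROOF.  Let `A = ℤ[G]`, `A' = ℤ[H]`, `j : A' →+* A` the inclusion (`mp H.subtype`).  Regard the
`A`-modules `P i` as `A'`-modules (`Module.compHom`).
* `A` is a free left `A'`-module of finite rank with basis `single t 1`, `t` in a finite set `T` of
representatives of the right cosets `H t`.  Hence every finitely generated projective `A`-module is
finitely generated projective over `A'` (a direct summand of `A^n`).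
* The differentials are `A'`-linear, `ε` is the same; the exactness statements are the same.
* Let `res : A → A'` be the restriction of the coefficients to `H` (`A'`-linear on the left, i.e.
`res (j a' * a) = a' * res a`, also `res (a * j a') = res a * a'`).
For an `A`-module `P` and an `A'`-linear `f : P → A'` put
`Φ f : P → A`, `Φ f x = ∑_{t ∈ T} single t⁻¹ 1 * j (f (single t 1 • x))`.  It does not depend on the
representatives (`f` is `A'`-linear), so it is `A`-linear (`Φ f (g x)`: the elements `t g` are again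
representatives); and `res (Φ f x) = f x` if `1 ∈ T` represents `H` (for `t ∉ H` the element
`t⁻¹ * j(..)` has support in `t⁻¹ H`, disjoint from `H`).  Conversely for an `A`-linear `F : P → A`,
`Φ (res ∘ F) = F` (`a = ∑_t t⁻¹ * j (res (t * a))` for all `a ∈ A`).  So `Φ` and `res ∘ .` are mutually
inverse bijections between `A'`-linear maps `P → A'` and `A`-linear maps `P → A`; they are
additive and compatible with composition with `A`-linear maps `P' → P`:
`Φ (f ∘ d) = Φ f ∘ d`.
* So all the cohomological conditions transfer: e.g. if `f ∘ d (i+1) = 0` then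
`Φ f ∘ d (i+1) = 0`, `Φ f = F ∘ d i`, `f = res ∘ Φ f = (res ∘ F) ∘ d i`.  The generator of the third
cohomology is `res ∘ f₀`.
-/

set_option autoImplicit false

namespace Pool.Agent.PDF

section transfer

variable {G : Type} [Group G] (H : Subgroup G)

open Classical in
/-- restriction of the coefficients to the subgroup -/
private noncomputable def res : MonoidAlgebra ℤ G →+ MonoidAlgebra ℤ H :=
  (Finsupp.liftAddHom fun g => if h : g ∈ H then MonoidAlgebra.singleAddHom (⟨g, h⟩ : H)
    else 0).comp (MonoidAlgebra.coeffAddEquiv (R := ℤ) (M := G)).toAddMonoidHom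

private theorem res_mem {g : G} (h : g ∈ H) (n : ℤ) :
    res H (MonoidAlgebra.single g n) = MonoidAlgebra.single ⟨g, h⟩ n := by
  simp [res, h]

private theorem res_not_mem {g : G} (h : g ∉ H) (n : ℤ) :
    res H (MonoidAlgebra.single g n) = 0 := by
  simp [res, h]

private theorem res_mul_left (a' : MonoidAlgebra ℤ H) (a : MonoidAlgebra ℤ G) :
    res H (mp H.subtype a' * a) = a' * res H a := by
  induction a' using MonoidAlgebra.induction_linear with
  | zero => simp
  | add x y hx hy => rw [map_add, add_mul, map_add, hx, hy, add_mul]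
  | single h m =>
    induction a using MonoidAlgebra.induction_linear with
    | zero => simp
    | add x y hx hy => rw [mul_add, map_add, hx, hy, map_add, mul_add]
    | single g n =>
      rw [mp_single, MonoidAlgebra.single_mul_single]
      by_cases hg : g ∈ H
      · have h2 : H.subtype h * g ∈ H := H.mul_mem h.2 hg
        rw [res_mem H hg, res_mem H h2, MonoidAlgebra.single_mul_single]
        rfl
      · have h2 : H.subtype h * g ∉ H := fun h3 => hg ((H.mul_mem_cancel_left h.2).1 h3)
        rw [res_not_mem H hg, res_not_mem H h2, mul_zero]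

private theorem res_mp (a' : MonoidAlgebra ℤ H) : res H (mp H.subtype a') = a' := by
  have h := res_mul_left H a' 1
  rw [mul_one] at h
  rw [h, MonoidAlgebra.one_def, res_mem H H.one_mem]
  have : (MonoidAlgebra.single ⟨1, H.one_mem⟩ 1 : MonoidAlgebra ℤ H) = 1 := rfl
  rw [this, mul_one]

private theorem res_out {g : G} (hg : g ∉ H) (a' : MonoidAlgebra ℤ H) :
    res H (MonoidAlgebra.single g 1 * mp H.subtype a') = 0 := by
  induction a' using MonoidAlgebra.induction_linear with
  | zero => simp
  | add x y hx hy => rw [map_add, mul_add, map_add, hx, hy, add_zero]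
  | single h m =>
    rw [mp_single, MonoidAlgebra.single_mul_single]
    exact res_not_mem H (fun h3 => hg ((H.mul_mem_cancel_right h.2).1 h3)) _

private theorem out_mul (g : G) : ∃ h : G, h ∈ H ∧ ((g : G ⧸ H)).out = g * h := by
  obtain ⟨h, hh⟩ := QuotientGroup.mk_out_eq_mul H g
  exact ⟨h, h.2, hh⟩

private theorem mem_iff (g : G) (q : G ⧸ H) : q.out⁻¹ * g ∈ H ↔ q = (g : G ⧸ H) := by
  rw [← QuotientGroup.eq]
  simp

private theorem id_right [Fintype (G ⧸ H)] (a : MonoidAlgebra ℤ G) :
    ∑ q : G ⧸ H, MonoidAlgebra.single q.out 1 *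
      mp H.subtype (res H (MonoidAlgebra.single q.out⁻¹ 1 * a)) = a := by
  induction a using MonoidAlgebra.induction_linear with
  | zero => simp
  | add x y hx hy =>
    simp only [mul_add, map_add]
    rw [Finset.sum_add_distrib, hx, hy]
  | single g n =>
    rw [Finset.sum_eq_single (g : G ⧸ H)]
    · have h := (mem_iff H g (g : G ⧸ H)).2 rfl
      rw [MonoidAlgebra.single_mul_single, res_mem H h, mp_single, MonoidAlgebra.single_mul_single]
      simp
    · intro q _ hq
      have h : q.out⁻¹ * g ∉ H := fun h => hq ((mem_iff H g q).1 h)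
      rw [MonoidAlgebra.single_mul_single, res_not_mem H h, map_zero, mul_zero]
    · intro h
      exact absurd (Finset.mem_univ _) h

private theorem id_left [Fintype (G ⧸ H)] (a : MonoidAlgebra ℤ G) :
    ∑ q : G ⧸ H, mp H.subtype (res H (a * MonoidAlgebra.single q.out 1)) *
      MonoidAlgebra.single q.out⁻¹ 1 = a := by
  induction a using MonoidAlgebra.induction_linear with
  | zero => simp
  | add x y hx hy =>
    simp only [add_mul, map_add]
    rw [Finset.sum_add_distrib, hx, hy]
  | single g n =>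
    have key : ∀ q : G ⧸ H, g * q.out ∈ H ↔ q = ((g⁻¹ : G) : G ⧸ H) := by
      intro q
      rw [← mem_iff, ← H.inv_mem_iff]
      simp
    rw [Finset.sum_eq_single ((g⁻¹ : G) : G ⧸ H)]
    · have h := (key ((g⁻¹ : G) : G ⧸ H)).2 rfl
      rw [MonoidAlgebra.single_mul_single, res_mem H h, mp_single, MonoidAlgebra.single_mul_single]
      simp
    · intro q _ hq
      have h : g * q.out ∉ H := fun h => hq ((key q).1 h)
      rw [MonoidAlgebra.single_mul_single, res_not_mem H h, map_zero, zero_mul]
    · intro h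
      exact absurd (Finset.mem_univ _) h

variable {P : Type} [AddCommGroup P] [Module (MonoidAlgebra ℤ G) P] [Module (MonoidAlgebra ℤ H) P]

/-- one term of the transfer -/
private noncomputable def tm (f : P →ₗ[MonoidAlgebra ℤ H] MonoidAlgebra ℤ H) (g : G) (x : P) :
    MonoidAlgebra ℤ G :=
  MonoidAlgebra.single g 1 * mp H.subtype (f ((MonoidAlgebra.single g⁻¹ 1 : MonoidAlgebra ℤ G) • x))

private theorem tm_mul (hc : ∀ (a' : MonoidAlgebra ℤ H) (x : P), a' • x = mp H.subtype a' • x)
    (f : P →ₗ[MonoidAlgebra ℤ H] MonoidAlgebra ℤ H) (g : G) {h : G} (hh : h ∈ H) (x : P) :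
    tm H f (g * h) x = tm H f g x := by
  unfold tm
  have h1 : (MonoidAlgebra.single (g * h)⁻¹ 1 : MonoidAlgebra ℤ G) • x =
      (MonoidAlgebra.single (⟨h⁻¹, H.inv_mem hh⟩ : H) 1 : MonoidAlgebra ℤ H) •
        ((MonoidAlgebra.single g⁻¹ 1 : MonoidAlgebra ℤ G) • x) := by
    rw [hc, mp_single, smul_smul, MonoidAlgebra.single_mul_single, mul_one, mul_inv_rev]
    rfl
  rw [h1, map_smul, smul_eq_mul, map_mul, mp_single, ← mul_assoc, MonoidAlgebra.single_mul_single,
    mul_one]
  have h2 : g * h * H.subtype (⟨h⁻¹, H.inv_mem hh⟩ : H) = g := by simp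
  rw [h2]

private theorem tm_add (f : P →ₗ[MonoidAlgebra ℤ H] MonoidAlgebra ℤ H) (g : G) (x y : P) :
    tm H f g (x + y) = tm H f g x + tm H f g y := by
  unfold tm
  rw [smul_add, map_add, map_add, mul_add]

private theorem tm_out (hc : ∀ (a' : MonoidAlgebra ℤ H) (x : P), a' • x = mp H.subtype a' • x)
    (f : P →ₗ[MonoidAlgebra ℤ H] MonoidAlgebra ℤ H) (g : G) (x : P) :
    tm H f ((g : G ⧸ H)).out x = tm H f g x := by
  obtain ⟨h, hh, e⟩ := out_mul H g
  rw [e, tm_mul H hc f g hh]

private theorem tm_smul (f : P →ₗ[MonoidAlgebra ℤ H] MonoidAlgebra ℤ H) (g s : G) (x : P) :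
    tm H f g ((MonoidAlgebra.single s 1 : MonoidAlgebra ℤ G) • x) =
      MonoidAlgebra.single s 1 * tm H f (s⁻¹ * g) x := by
  unfold tm
  rw [smul_smul, ← mul_assoc, MonoidAlgebra.single_mul_single, MonoidAlgebra.single_mul_single,
    mul_one, mul_inv_cancel_left]
  congr 5
  group

private noncomputable def PhiFun [Fintype (G ⧸ H)]
    (f : P →ₗ[MonoidAlgebra ℤ H] MonoidAlgebra ℤ H) (x : P) : MonoidAlgebra ℤ G :=
  ∑ q : G ⧸ H, tm H f q.out x

private theorem PhiFun_add [Fintype (G ⧸ H)] (f : P →ₗ[MonoidAlgebra ℤ H] MonoidAlgebra ℤ H)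
    (x y : P) : PhiFun H f (x + y) = PhiFun H f x + PhiFun H f y := by
  unfold PhiFun
  rw [← Finset.sum_add_distrib]
  exact Finset.sum_congr rfl fun q _ => tm_add H f _ x y

private theorem PhiFun_single [Fintype (G ⧸ H)]
    (hc : ∀ (a' : MonoidAlgebra ℤ H) (x : P), a' • x = mp H.subtype a' • x)
    (f : P →ₗ[MonoidAlgebra ℤ H] MonoidAlgebra ℤ H) (s : G) (x : P) :
    PhiFun H f ((MonoidAlgebra.single s 1 : MonoidAlgebra ℤ G) • x) =
      MonoidAlgebra.single s 1 * PhiFun H f x := by
  unfold PhiFun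
  rw [Finset.mul_sum]
  rw [← Equiv.sum_comp (MulAction.toPerm (s⁻¹ : G) : Equiv.Perm (G ⧸ H))
    (fun q : G ⧸ H => MonoidAlgebra.single s 1 * tm H f q.out x)]
  refine Finset.sum_congr rfl fun q _ => ?_
  rw [tm_smul]
  congr 1
  have e : (MulAction.toPerm (s⁻¹ : G) : Equiv.Perm (G ⧸ H)) q = ((s⁻¹ * q.out : G) : G ⧸ H) := by
    rw [MulAction.toPerm_apply, ← smul_eq_mul, ← MulAction.Quotient.smul_coe]
    simp
  rw [e, tm_out H hc]

private noncomputable def Phi [Fintype (G ⧸ H)]
    (hc : ∀ (a' : MonoidAlgebra ℤ H) (x : P), a' • x = mp H.subtype a' • x)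
    (f : P →ₗ[MonoidAlgebra ℤ H] MonoidAlgebra ℤ H) : P →ₗ[MonoidAlgebra ℤ G] MonoidAlgebra ℤ G where
  toFun := PhiFun H f
  map_add' := PhiFun_add H f
  map_smul' a x := by
    rw [RingHom.id_apply, smul_eq_mul]
    induction a using MonoidAlgebra.induction_linear with
    | zero =>
      rw [zero_smul, zero_mul]
      have h := PhiFun_add H f (0 : P) 0
      rw [add_zero] at h
      exact left_eq_add.1 h
    | add a b ha hb => rw [add_smul, PhiFun_add, ha, hb, add_mul]
    | single s n =>
      have e : (MonoidAlgebra.single s n : MonoidAlgebra ℤ G) =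
          n • (MonoidAlgebra.single s 1 : MonoidAlgebra ℤ G) := by
        rw [MonoidAlgebra.smul_single, smul_eq_mul, mul_one]
      have h := map_zsmul (AddMonoidHom.mk' (PhiFun H f) (PhiFun_add H f)) n
        ((MonoidAlgebra.single s 1 : MonoidAlgebra ℤ G) • x)
      simp only [AddMonoidHom.mk'_apply] at h
      rw [e, smul_assoc, h, PhiFun_single H hc, smul_mul_assoc]

private theorem Phi_apply [Fintype (G ⧸ H)]
    (hc : ∀ (a' : MonoidAlgebra ℤ H) (x : P), a' • x = mp H.subtype a' • x)
    (f : P →ₗ[MonoidAlgebra ℤ H] MonoidAlgebra ℤ H) (x : P) :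
    Phi H hc f x = ∑ q : G ⧸ H, tm H f q.out x := rfl

/-- restriction of a map -/
private noncomputable def resMap
    (hc : ∀ (a' : MonoidAlgebra ℤ H) (x : P), a' • x = mp H.subtype a' • x)
    (F : P →ₗ[MonoidAlgebra ℤ G] MonoidAlgebra ℤ G) : P →ₗ[MonoidAlgebra ℤ H] MonoidAlgebra ℤ H where
  toFun x := res H (F x)
  map_add' x y := by rw [map_add, map_add]
  map_smul' a' x := by
    rw [hc, map_smul, smul_eq_mul, res_mul_left, RingHom.id_apply, smul_eq_mul]

private theorem resMap_apply
    (hc : ∀ (a' : MonoidAlgebra ℤ H) (x : P), a' • x = mp H.subtype a' • x)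
    (F : P →ₗ[MonoidAlgebra ℤ G] MonoidAlgebra ℤ G) (x : P) : resMap H hc F x = res H (F x) := rfl

private theorem resMap_Phi [Fintype (G ⧸ H)]
    (hc : ∀ (a' : MonoidAlgebra ℤ H) (x : P), a' • x = mp H.subtype a' • x)
    (f : P →ₗ[MonoidAlgebra ℤ H] MonoidAlgebra ℤ H) : resMap H hc (Phi H hc f) = f := by
  apply LinearMap.ext
  intro x
  rw [resMap_apply, Phi_apply, map_sum, Finset.sum_eq_single ((1 : G) : G ⧸ H)]
  · rw [tm_out H hc]
    unfold tm
    rw [inv_one, ← MonoidAlgebra.one_def, one_smul, one_mul, res_mp]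
  · intro q _ hq
    unfold tm
    refine res_out H (fun h => hq ?_) _
    have h2 := (mem_iff H 1 q).1 (by rw [mul_one]; exact H.inv_mem h)
    exact h2
  · intro h
    exact absurd (Finset.mem_univ _) h

private theorem Phi_resMap [Fintype (G ⧸ H)]
    (hc : ∀ (a' : MonoidAlgebra ℤ H) (x : P), a' • x = mp H.subtype a' • x)
    (F : P →ₗ[MonoidAlgebra ℤ G] MonoidAlgebra ℤ G) : Phi H hc (resMap H hc F) = F := by
  apply LinearMap.ext
  intro x
  rw [Phi_apply]
  unfold tm
  simp only [resMap_apply, map_smul, smul_eq_mul]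
  exact id_right H (F x)

private theorem fin_proj [Fintype (G ⧸ H)]
    (hc : ∀ (a' : MonoidAlgebra ℤ H) (x : P), a' • x = mp H.subtype a' • x)
    (h1 : Module.Projective (MonoidAlgebra ℤ G) P) (h2 : Module.Finite (MonoidAlgebra ℤ G) P) :
    Module.Projective (MonoidAlgebra ℤ H) P ∧ Module.Finite (MonoidAlgebra ℤ H) P := by
  obtain ⟨n, ρ, hρ⟩ := Module.Finite.exists_fin' (MonoidAlgebra ℤ G) P
  obtain ⟨ι, hι⟩ := Module.projective_lifting_property ρ LinearMap.id hρ
  have hρι : ∀ x, ρ (ι x) = x := fun x => LinearMap.congr_fun hι x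
  let u : P →ₗ[MonoidAlgebra ℤ H] (Fin n → (G ⧸ H) → MonoidAlgebra ℤ H) :=
    { toFun := fun x k q => res H (ι x k * MonoidAlgebra.single q.out 1)
      map_add' := fun x y => by
        funext k q
        rw [map_add, Pi.add_apply, add_mul, map_add]
        rfl
      map_smul' := fun a' x => by
        funext k q
        rw [hc, map_smul, Pi.smul_apply, smul_eq_mul, mul_assoc, res_mul_left]
        rfl }
  let v : (Fin n → (G ⧸ H) → MonoidAlgebra ℤ H) →ₗ[MonoidAlgebra ℤ H] P :=
    { toFun := fun w => ρ fun k => ∑ q, mp H.subtype (w k q) * MonoidAlgebra.single q.out⁻¹ 1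
      map_add' := fun w w' => by
        rw [← map_add]
        congr 1
        funext k
        simp only [Pi.add_apply, map_add, add_mul, Finset.sum_add_distrib]
      map_smul' := fun a' w => by
        rw [RingHom.id_apply, hc, ← map_smul]
        congr 1
        funext k
        simp only [Pi.smul_apply, smul_eq_mul, map_mul, mul_assoc, Finset.mul_sum] }
  have hvu : v ∘ₗ u = LinearMap.id := by
    apply LinearMap.ext
    intro x
    have e : (fun k => ∑ q : G ⧸ H, mp H.subtype (res H (ι x k * MonoidAlgebra.single q.out 1)) *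
        MonoidAlgebra.single q.out⁻¹ 1) = ι x := by
      funext k
      exact id_left H (ι x k)
    show ρ (fun k => ∑ q : G ⧸ H, mp H.subtype (res H (ι x k * MonoidAlgebra.single q.out 1)) *
        MonoidAlgebra.single q.out⁻¹ 1) = x
    rw [e, hρι]
  refine ⟨Module.Projective.of_split u v hvu, Module.Finite.of_surjective v ?_⟩
  intro x
  exact ⟨u x, LinearMap.congr_fun hvu x⟩

end transfer

theorem pd3_finiteIndex (G : Type) [Group G] (hG : IsPD3 G) (H : Subgroup G) [H.FiniteIndex] :
    IsPD3 H := by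
  classical
  have : Finite (G ⧸ H) := inferInstance
  have := Fintype.ofFinite (G ⧸ H)
  obtain ⟨N, P, i1, i2, hproj, hfin, hN, d, ε, hε1, hε2, hε3, hex, hc0, hci, f₀, hf1, hf2, hf3⟩ := hG
  let i3 : ∀ i, Module (MonoidAlgebra ℤ H) (P i) := fun i =>
    Module.compHom (P i) (mp H.subtype)
  have hc : ∀ i (a' : MonoidAlgebra ℤ H) (x : P i), a' • x = mp H.subtype a' • x :=
    fun i a' x => rfl
  let d' : ∀ i, P (i + 1) →ₗ[MonoidAlgebra ℤ H] P i := fun i =>
    { toFun := d i
      map_add' := map_add (d i)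
      map_smul' := fun a' x => by
        rw [hc, map_smul]
        rfl }
  have hd' : ∀ i x, d' i x = d i x := fun _ _ => rfl
  have fwd : ∀ i (f : P i →ₗ[MonoidAlgebra ℤ H] MonoidAlgebra ℤ H),
      Phi H (hc (i + 1)) (f ∘ₗ d' i) = Phi H (hc i) f ∘ₗ d i := by
    intro i f
    apply LinearMap.ext
    intro x
    rw [LinearMap.comp_apply, Phi_apply, Phi_apply]
    refine Finset.sum_congr rfl fun q _ => ?_
    unfold tm
    rw [LinearMap.comp_apply, hd', map_smul]
  have bwd : ∀ i (F : P i →ₗ[MonoidAlgebra ℤ G] MonoidAlgebra ℤ G),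
      resMap H (hc (i + 1)) (F ∘ₗ d i) = resMap H (hc i) F ∘ₗ d' i := by
    intro i F
    apply LinearMap.ext
    intro x
    rfl
  have Phi0 : ∀ i, Phi H (hc i) 0 = 0 := by
    intro i
    apply LinearMap.ext
    intro x
    rw [Phi_apply]
    refine Finset.sum_eq_zero fun q _ => ?_
    unfold tm
    rw [LinearMap.zero_apply, map_zero, mul_zero]
  have res0 : ∀ i, resMap H (hc i) 0 = 0 := by
    intro i
    apply LinearMap.ext
    intro x
    rw [resMap_apply, LinearMap.zero_apply, map_zero, LinearMap.zero_apply]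
  have resadd : ∀ i (F F' : P i →ₗ[MonoidAlgebra ℤ G] MonoidAlgebra ℤ G),
      resMap H (hc i) (F + F') = resMap H (hc i) F + resMap H (hc i) F' := by
    intro i F F'
    apply LinearMap.ext
    intro x
    rw [resMap_apply, LinearMap.add_apply, map_add, LinearMap.add_apply, resMap_apply, resMap_apply]
  have ressmul : ∀ i (n : ℤ) (F : P i →ₗ[MonoidAlgebra ℤ G] MonoidAlgebra ℤ G),
      resMap H (hc i) (n • F) = n • resMap H (hc i) F := by
    intro i n F
    apply LinearMap.ext
    intro x
    rw [resMap_apply, LinearMap.smul_apply, map_zsmul, LinearMap.smul_apply, resMap_apply]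
  refine ⟨N, P, i1, i3, fun i => (fin_proj H (hc i) (hproj i) (hfin i)).1,
    fun i => (fin_proj H (hc i) (hproj i) (hfin i)).2, hN, d', ε, ?_, hε2, hε3, hex, ?_, ?_, ?_⟩
  · intro h x
    rw [hc, MonoidAlgebra.of_apply, mp_single]
    exact hε1 (h : G) x
  · intro f hf
    have h1 : Phi H (hc 0) f = 0 := by
      apply hc0
      rw [← fwd, hf, Phi0]
    rw [← resMap_Phi H (hc 0) f, h1, res0]
  · intro i hi f hf
    obtain ⟨g, hg⟩ := hci i hi (Phi H (hc (i + 1)) f) (by rw [← fwd, hf, Phi0])
    refine ⟨resMap H (hc i) g, ?_⟩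
    rw [← bwd, ← hg, resMap_Phi]
  · refine ⟨resMap H (hc (2 + 1)) f₀, ?_, ?_, ?_⟩
    · rw [← bwd, hf1, res0]
    · intro f hf
      obtain ⟨n, g, hg⟩ := hf2 (Phi H (hc (2 + 1)) f) (by rw [← fwd, hf, Phi0])
      refine ⟨n, resMap H (hc 2) g, ?_⟩
      rw [← bwd, ← ressmul, ← resadd, ← hg, resMap_Phi]
    · intro n g hg
      refine hf3 n (Phi H (hc 2) g) ?_
      rw [← fwd, ← hg, ← ressmul, Phi_resMap]

end Pool.Agent.PDF
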