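import Mathlib
import Pool.Agent.NR39.PFree

/-!
# Blueprint PDF, module ResSol

Derived series: free groups are residually solvable, and comparison for subgroups containing a
term of the derived series.

PROOFS.
`free_derived`: free groups are residually finite `p`-groups (see `Pool/Agent/NR39/PFree.lean`,
`Pool.Agent.NR39.free_residual_p`; one may import it) or residually (finite solvable); a finite
`p`-group is solvable, so a nontrivial element survives in some `FreeGroup α ⧸ derivedSeries n`.
`derived_sub`: by induction on `n`, `derivedSeries G (k + n) ≤ (derivedSeries H n).map H.subtype`: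
the case `n = 0` is `hk`; the commutator subgroup of the image is the image of the commutator
subgroup (`Subgroup.map_commutator`, `Subgroup.commutator_mono`).
`derived_le`: `(derivedSeries H n).map H.subtype ≤ derivedSeries G n`
(`map_derivedSeries_le_derivedSeries`).
-/

set_option autoImplicit false

namespace Pool.Agent.PDF

theorem free_derived (α : Type) : (⨅ n : ℕ, derivedSeries (FreeGroup α) n) = ⊥ := by
  rw [eq_bot_iff]
  intro x hx
  rw [Subgroup.mem_bot]
  by_contra hne
  haveI : Fact (Nat.Prime 2) := ⟨Nat.prime_two⟩
  obtain ⟨P, hG, hF, f, hP, hf⟩ := Pool.Agent.NR39.free_residual_p 2 x hne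
  haveI : Group.IsNilpotent P := IsPGroup.isNilpotent hP
  haveI : Group.IsSolvable P := inferInstance
  obtain ⟨n, hn⟩ := (Group.isSolvable_def P).1 inferInstance
  have h1 : x ∈ derivedSeries (FreeGroup α) n := by
    have := (Subgroup.mem_iInf.1 hx) n
    exact this
  have h2 : f x ∈ derivedSeries P n :=
    map_derivedSeries_le_derivedSeries f n (Subgroup.mem_map_of_mem f h1)
  rw [hn, Subgroup.mem_bot] at h2
  exact hf h2

theorem derived_sub {G : Type*} [Group G] (H : Subgroup G) (k : ℕ) (hk : derivedSeries G k ≤ H)
    (n : ℕ) : derivedSeries G (k + n) ≤ (derivedSeries H n).map H.subtype := by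
  induction n with
  | zero =>
    rw [Nat.add_zero, derivedSeries_zero]
    intro x hx
    exact ⟨⟨x, hk hx⟩, Subgroup.mem_top _, rfl⟩
  | succ n ih =>
    rw [← Nat.add_assoc, derivedSeries_succ, derivedSeries_succ, Subgroup.map_commutator]
    exact Subgroup.commutator_mono ih ih

theorem derived_le {G : Type*} [Group G] (H : Subgroup G) (n : ℕ) :
    (derivedSeries H n).map H.subtype ≤ derivedSeries G n := by
  exact map_derivedSeries_le_derivedSeries H.subtype n

end Pool.Agent.PDF
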