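import Pool.Agent.PDF.Defs

/-!
# Blueprint PDF: definitions for the duality part

`IsPD3 G` is the hypothesis of the frozen statement `S03433` (word for word).  `mp π` is the ring
homomorphism of integral group rings induced by a group homomorphism.  `Base` and `Half` describe
the first terms of a projective resolution of the trivial module, written with idempotent matrices
(row vectors, differentials acting by right multiplication).  `dag s` is the conjugate transpose for
the anti-automorphism `g ↦ s(g) g⁻¹` of the integral group ring, `s` a sign character.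
-/

set_option autoImplicit false

namespace Pool.Agent.PDF

/-- `G` is a `PD_3`-group (the hypothesis of the frozen statement) -/
def IsPD3 (G : Type) [Group G] : Prop :=
    ∃ (N : ℕ) (P : ℕ → Type) (_ : ∀ i, AddCommGroup (P i))
      (_ : ∀ i, Module (MonoidAlgebra ℤ G) (P i)),
      (∀ i, Module.Projective (MonoidAlgebra ℤ G) (P i)) ∧
      (∀ i, Module.Finite (MonoidAlgebra ℤ G) (P i)) ∧
      (∀ i, N < i → Subsingleton (P i)) ∧
      ∃ (d : ∀ i, P (i + 1) →ₗ[MonoidAlgebra ℤ G] P i) (ε : P 0 →+ ℤ),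
        (∀ (g : G) (x : P 0), ε (MonoidAlgebra.of ℤ G g • x) = ε x) ∧
        Function.Surjective ε ∧
        (∀ x : P 0, ε x = 0 ↔ ∃ y, d 0 y = x) ∧
        (∀ (i : ℕ) (x : P (i + 1)), d i x = 0 ↔ ∃ y, d (i + 1) y = x) ∧
        (∀ f : P 0 →ₗ[MonoidAlgebra ℤ G] MonoidAlgebra ℤ G, f ∘ₗ d 0 = 0 → f = 0) ∧
        (∀ i : ℕ, i + 1 ≠ 3 →
          ∀ f : P (i + 1) →ₗ[MonoidAlgebra ℤ G] MonoidAlgebra ℤ G,
            f ∘ₗ d (i + 1) = 0 →
              ∃ g : P i →ₗ[MonoidAlgebra ℤ G] MonoidAlgebra ℤ G, f = g ∘ₗ d i) ∧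
        (∃ f₀ : P (2 + 1) →ₗ[MonoidAlgebra ℤ G] MonoidAlgebra ℤ G,
          f₀ ∘ₗ d (2 + 1) = 0 ∧
          (∀ f : P (2 + 1) →ₗ[MonoidAlgebra ℤ G] MonoidAlgebra ℤ G,
            f ∘ₗ d (2 + 1) = 0 →
              ∃ (n : ℤ) (g : P 2 →ₗ[MonoidAlgebra ℤ G] MonoidAlgebra ℤ G),
                f = n • f₀ + g ∘ₗ d 2) ∧
          (∀ (n : ℤ) (g : P 2 →ₗ[MonoidAlgebra ℤ G] MonoidAlgebra ℤ G),
            n • f₀ = g ∘ₗ d 2 → n = 0))

/-- the ring homomorphism of integral group rings induced by a group homomorphism -/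
noncomputable def mp {G H : Type*} [Group G] [Group H] (π : G →* H) :
    MonoidAlgebra ℤ G →+* MonoidAlgebra ℤ H := MonoidAlgebra.mapDomainRingHom ℤ π

@[simp] theorem mp_single {G H : Type*} [Group G] [Group H] (π : G →* H) (g : G) (a : ℤ) :
    mp π (MonoidAlgebra.single g a) = MonoidAlgebra.single (π g) a := by
  simp [mp]

@[simp] theorem aug_mp {G H : Type*} [Group G] [Group H] (π : G →* H) (x : MonoidAlgebra ℤ G) :
    aug (mp π x) = aug x := by
  induction x using MonoidAlgebra.induction_linear with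
  | zero => simp
  | add x y hx hy => simp [hx, hy]
  | single m b => simp

/-- the weighted augmentation of a row vector -/
noncomputable def eps {G n : Type*} [Group G] [Fintype n] (m : n → ℤ)
    (v : n → MonoidAlgebra ℤ G) : ℤ := ∑ j, aug (v j) * m j

/-- the terms `C₁ → C₀ → ℤ → 0` of a projective resolution, `C_i` the row space of `e_i` -/
structure Base {G : Type*} [Group G] {n0 n1 : Type*} [Fintype n0] [Fintype n1]
    (e0 : Matrix n0 n0 (MonoidAlgebra ℤ G)) (e1 : Matrix n1 n1 (MonoidAlgebra ℤ G))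
    (d1 : Matrix n1 n0 (MonoidAlgebra ℤ G)) (m : n0 → ℤ) : Prop where
  e0e0 : e0 * e0 = e0
  e1e1 : e1 * e1 = e1
  e1d1 : e1 * d1 = d1
  d1e0 : d1 * e0 = d1
  me0 : ∀ i, eps m (e0 i) = m i
  md1 : ∀ i, eps m (d1 i) = 0
  one : ∃ v : n0 → MonoidAlgebra ℤ G, Matrix.vecMul v e0 = v ∧ eps m v = 1
  ex0 : ∀ v : n0 → MonoidAlgebra ℤ G, Matrix.vecMul v e0 = v → eps m v = 0 →
    ∃ y : n1 → MonoidAlgebra ℤ G, Matrix.vecMul y d1 = v

/-- the terms `C₂ → C₁ → C₀ → ℤ → 0` of a projective resolution (`C₂` given by its generators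
only), exact at `ℤ`, `C₀` and `C₁` -/
structure Half {G : Type*} [Group G] {n0 n1 n2 : Type*} [Fintype n0] [Fintype n1] [Fintype n2]
    (e0 : Matrix n0 n0 (MonoidAlgebra ℤ G)) (e1 : Matrix n1 n1 (MonoidAlgebra ℤ G))
    (d1 : Matrix n1 n0 (MonoidAlgebra ℤ G)) (d2 : Matrix n2 n1 (MonoidAlgebra ℤ G))
    (m : n0 → ℤ) : Prop extends Base e0 e1 d1 m where
  d2e1 : d2 * e1 = d2
  d2d1 : d2 * d1 = 0
  ex1 : ∀ v : n1 → MonoidAlgebra ℤ G, Matrix.vecMul v e1 = v → Matrix.vecMul v d1 = 0 →
    ∃ y : n2 → MonoidAlgebra ℤ G, Matrix.vecMul y d2 = v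

/-- the matrix of a left linear map between spaces of row vectors -/
def toMat {A n m : Type*} [Ring A] [DecidableEq n] (L : (n → A) →ₗ[A] (m → A)) : Matrix n m A :=
  Matrix.of fun i => L (Pi.single i 1)

theorem vecMul_toMat {A n m : Type*} [Ring A] [Fintype n] [DecidableEq n]
    (L : (n → A) →ₗ[A] (m → A)) (v : n → A) : Matrix.vecMul v (toMat L) = L v := by
  have hv : v = ∑ i, v i • (Pi.single i (1 : A) : n → A) := by
    funext j
    simp [Finset.sum_apply, Pi.single_apply]
  conv_rhs => rw [hv, map_sum]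
  funext j
  simp [Matrix.vecMul, dotProduct, toMat, Finset.sum_apply]

theorem toMat_comp {A n m k : Type*} [Ring A] [Fintype n] [DecidableEq n] [Fintype m]
    [DecidableEq m] (L : (n → A) →ₗ[A] (m → A)) (L' : (m → A) →ₗ[A] (k → A)) :
    toMat (L' ∘ₗ L) = toMat L * toMat L' := by
  refine Matrix.ext fun i j => ?_
  have h := congrFun (vecMul_toMat L' (L (Pi.single i 1))) j
  rw [Matrix.mul_apply]
  exact h.symm

/-- the anti-automorphism `g ↦ s(g) g⁻¹` of the integral group ring, as an additive map -/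
noncomputable def iota {G : Type*} [Group G] (s : G →* ℤˣ) :
    MonoidAlgebra ℤ G →+ MonoidAlgebra ℤ G :=
  (Finsupp.liftAddHom fun g => (MonoidAlgebra.singleAddHom (R := ℤ) (g⁻¹)).comp
      (AddMonoidHom.mulRight ((s g : ℤˣ) : ℤ))).comp
    (MonoidAlgebra.coeffAddEquiv (R := ℤ) (M := G)).toAddMonoidHom

@[simp] theorem iota_single {G : Type*} [Group G] (s : G →* ℤˣ) (g : G) (a : ℤ) :
    iota s (MonoidAlgebra.single g a) = MonoidAlgebra.single g⁻¹ (a * (s g : ℤˣ)) := by
  simp [iota]

theorem iota_mul {G : Type*} [Group G] (s : G →* ℤˣ) (x y : MonoidAlgebra ℤ G) :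
    iota s (x * y) = iota s y * iota s x := by
  induction x using MonoidAlgebra.induction_linear with
  | zero => simp
  | add x x' hx hx' => simp [add_mul, mul_add, hx, hx']
  | single g a =>
    induction y using MonoidAlgebra.induction_linear with
    | zero => simp
    | add y y' hy hy' => simp [add_mul, mul_add, hy, hy']
    | single h b =>
      simp only [MonoidAlgebra.single_mul_single, iota_single, map_mul, Units.val_mul, mul_inv_rev]
      congr 1
      ring

theorem iota_iota {G : Type*} [Group G] (s : G →* ℤˣ) (x : MonoidAlgebra ℤ G) :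
    iota s (iota s x) = x := by
  induction x using MonoidAlgebra.induction_linear with
  | zero => simp
  | add x x' hx hx' => simp [hx, hx']
  | single g a =>
    have h : ((s g : ℤˣ) : ℤ) * ((s g : ℤˣ) : ℤ) = 1 := by
      rw [← Units.val_mul, Int.units_mul_self]; rfl
    simp [mul_assoc, h]

@[simp] theorem iota_one {G : Type*} [Group G] (s : G →* ℤˣ) : iota s 1 = 1 := by
  simp [MonoidAlgebra.one_def]

theorem aug_iota {G : Type*} [Group G] (s : G →* ℤˣ) (x : MonoidAlgebra ℤ G) :
    aug (iota s x) = ev (fun g => ((s g : ℤˣ) : ℤ)) x := by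
  induction x using MonoidAlgebra.induction_linear with
  | zero => simp
  | add x x' hx hx' => simp [hx, hx']
  | single g a => simp

theorem mp_iota {G H : Type*} [Group G] [Group H] (π : G →* H) (s : H →* ℤˣ)
    (x : MonoidAlgebra ℤ G) : mp π (iota (s.comp π) x) = iota s (mp π x) := by
  induction x using MonoidAlgebra.induction_linear with
  | zero => simp
  | add x x' hx hx' => simp [hx, hx']
  | single g a => simp

/-- the twisted conjugate transpose of a matrix over the integral group ring -/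
noncomputable def dag {G n m : Type*} [Group G] (s : G →* ℤˣ) (M : Matrix n m (MonoidAlgebra ℤ G)) :
    Matrix m n (MonoidAlgebra ℤ G) := M.transpose.map (iota s)

theorem dag_apply {G n m : Type*} [Group G] (s : G →* ℤˣ) (M : Matrix n m (MonoidAlgebra ℤ G))
    (i : m) (j : n) : dag s M i j = iota s (M j i) := rfl

theorem dag_mul {G n m k : Type*} [Group G] [Fintype m] (s : G →* ℤˣ)
    (M : Matrix n m (MonoidAlgebra ℤ G)) (N : Matrix m k (MonoidAlgebra ℤ G)) :
    dag s (M * N) = dag s N * dag s M := by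
  refine Matrix.ext fun i j => ?_
  simp [dag_apply, Matrix.mul_apply, map_sum, iota_mul]

theorem dag_dag {G n m : Type*} [Group G] (s : G →* ℤˣ) (M : Matrix n m (MonoidAlgebra ℤ G)) :
    dag s (dag s M) = M := by
  refine Matrix.ext fun i j => ?_
  simp [dag_apply, iota_iota]

theorem dag_zero {G n m : Type*} [Group G] (s : G →* ℤˣ) :
    dag s (0 : Matrix n m (MonoidAlgebra ℤ G)) = 0 := by
  refine Matrix.ext fun i j => ?_
  simp [dag_apply]

theorem dag_mp {G H n m : Type*} [Group G] [Group H] (π : G →* H) (s : H →* ℤˣ)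
    (M : Matrix n m (MonoidAlgebra ℤ G)) :
    (dag (s.comp π) M).map (mp π) = dag s (M.map (mp π)) := by
  refine Matrix.ext fun i j => ?_
  simp [dag_apply, mp_iota]

end Pool.Agent.PDF
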