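import Mathlib

/-!
# Blueprint PDF, module Trunc

Truncation of a finite projective resolution whose cohomology with coefficients in the ring
vanishes above degree three: the image of `P 4 → P 3` is a direct summand.

PROOF.  Claim: for every `i ≥ 3` there is an idempotent `τ i : P i → P i` with
`τ i x = 0 ↔ x ∈ range (d i)`.  For `i > N` take `τ i = 0` (`P i` is trivial).
Suppose `τ' = τ (i+1)` is given, `i ≥ 3`.  As `P (i+1)` is finitely generated projective there are
`ι : P (i+1) → (Fin m → A)`, `ρ : (Fin m → A) → P (i+1)` with `ρ ∘ ι = id`.  Each coordinate `f_j` of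
`ι ∘ τ'` satisfies `f_j ∘ d (i+1) = 0` (`τ'` kills the range of `d (i+1)`), so by `hcoh`
(`i + 1 ≠ 3`) `f_j = g_j ∘ d i` with `g_j : P i → A`.  Let `g : P i → (Fin m → A)` have coordinates
`g_j` and `h = ρ ∘ g : P i → P (i+1)`.  Then `h ∘ d i = ρ ∘ ι ∘ τ' = τ'`, and
`d i ∘ h ∘ d i = d i ∘ τ' = d i`, because `x - τ' x` is in the kernel of `τ'`
(idempotent), i.e. in the range of `d (i+1)`, which is killed by `d i`.  Put
`τ i = id - d i ∘ h`; it is idempotent, and `τ i x = 0` iff `x = d i (h x)` iff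
`x ∈ range (d i)`.
Descending induction from `i = N + 1` (or `max`) to `i = 3`.
-/

set_option autoImplicit false

namespace Pool.Agent.PDF

theorem trunc {A : Type} [Ring A] (N : ℕ) (P : ℕ → Type) [∀ i, AddCommGroup (P i)]
    [∀ i, Module A (P i)] (hproj : ∀ i, Module.Projective A (P i))
    (hfin : ∀ i, Module.Finite A (P i)) (hN : ∀ i, N < i → Subsingleton (P i))
    (d : ∀ i, P (i + 1) →ₗ[A] P i)
    (hex : ∀ (i : ℕ) (x : P (i + 1)), d i x = 0 ↔ ∃ y, d (i + 1) y = x)
    (hcoh : ∀ i : ℕ, i + 1 ≠ 3 → ∀ f : P (i + 1) →ₗ[A] A, f ∘ₗ d (i + 1) = 0 →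
      ∃ g : P i →ₗ[A] A, f = g ∘ₗ d i) :
    ∃ τ : P 3 →ₗ[A] P 3, τ ∘ₗ τ = τ ∧ ∀ x, τ x = 0 ↔ ∃ y, d 3 y = x := by
  have claim : ∀ k i : ℕ, 3 ≤ i → N < i + k →
      ∃ τ : P i →ₗ[A] P i, τ ∘ₗ τ = τ ∧ ∀ x, τ x = 0 ↔ ∃ y, d i y = x := by
    intro k
    induction k with
    | zero =>
      intro i _ hi
      have := hN i hi
      refine ⟨0, by ext x; rfl, fun x => ⟨fun _ => ⟨0, Subsingleton.elim _ _⟩, fun _ => rfl⟩⟩
    | succ k ih =>
      intro i hi3 hi
      obtain ⟨τ', hτ1, hτ2⟩ := ih (i + 1) (by omega) (by omega)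
      have hτi : ∀ x, τ' (τ' x) = τ' x := fun x => LinearMap.congr_fun hτ1 x
      have := hproj (i + 1)
      have := hfin (i + 1)
      obtain ⟨m, ρ, hρ⟩ := Module.Finite.exists_fin' A (P (i + 1))
      obtain ⟨ι, hι⟩ := Module.projective_lifting_property ρ LinearMap.id hρ
      have hρι : ∀ x, ρ (ι x) = x := fun x => LinearMap.congr_fun hι x
      have hf : ∀ j : Fin m, ((LinearMap.proj j) ∘ₗ ι ∘ₗ τ' : P (i + 1) →ₗ[A] A) ∘ₗ d (i + 1) = 0 := by
        intro j
        ext y
        have h1 : τ' (d (i + 1) y) = 0 := (hτ2 _).2 ⟨y, rfl⟩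
        simp only [LinearMap.comp_apply, h1, map_zero, LinearMap.zero_apply]
      choose g hg using fun j : Fin m => hcoh i (by omega) _ (hf j)
      have hh : ∀ x, ρ (LinearMap.pi g (d i x)) = τ' x := by
        intro x
        have h1 : LinearMap.pi g (d i x) = ι (τ' x) := by
          funext j
          have h2 := LinearMap.congr_fun (hg j) x
          simp only [LinearMap.comp_apply, LinearMap.proj_apply] at h2
          rw [LinearMap.pi_apply]
          exact h2.symm
        rw [h1, hρι]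
      have hd : ∀ x, d i (τ' x) = d i x := by
        intro x
        have h1 : τ' (x - τ' x) = 0 := by rw [map_sub, hτi, sub_self]
        have h2 := (hτ2 _).1 h1
        have h3 := (hex i (x - τ' x)).2 h2
        rw [map_sub, sub_eq_zero] at h3
        exact h3.symm
      have hdd : ∀ x, d i (ρ (LinearMap.pi g (d i x))) = d i x := fun x => by rw [hh, hd]
      refine ⟨LinearMap.id - d i ∘ₗ ρ ∘ₗ LinearMap.pi g, ?_, fun x => ?_⟩
      · apply LinearMap.ext
        intro x
        simp only [LinearMap.comp_apply, LinearMap.sub_apply, LinearMap.id_apply, map_sub, hdd,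
          sub_self, sub_zero]
      · simp only [LinearMap.comp_apply, LinearMap.sub_apply, LinearMap.id_apply, sub_eq_zero]
        constructor
        · intro h
          exact ⟨_, h.symm⟩
        · rintro ⟨y, rfl⟩
          exact (hdd y).symm
  exact claim (N + 1) 3 le_rfl (by omega)

end Pool.Agent.PDF
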